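import Pool.Agent.H7.PNTE.Z6

/-!
# The prime number theorem with error term

* `psi_pnt` : `|ψ(x) - x| ≤ C x / (log x)^A` for `x ≥ 2`
* `theta_pnt` : `|θ(x) - x| ≤ C x / (log x)^A` for `x ≥ 2`
* `pi_pnt` : `|π(x) - x / log x| ≤ C x / (log x)^2` for large `x`
-/

set_option autoImplicit false

namespace PNTE
open Finset MTA Filter
open ArithmeticFunction (vonMangoldt)

theorem pow_le_fac (A : ℕ) {X : ℝ} (hX : 0 ≤ X) : X ^ A ≤ (2 ^ A * A.factorial) * Real.exp (X / 2) := by
  have h := Real.pow_div_factorial_le_exp (X / 2) (by positivity) A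
  rw [div_le_iff₀ (by positivity), div_pow, div_le_iff₀ (by positivity)] at h
  linarith

theorem half_exp (A : ℕ) {X : ℝ} (hX : 0 < X) :
    Real.exp (X / 2) ≤ (2 ^ A * A.factorial) * (Real.exp X / X ^ A) := by
  have h := pow_le_fac A hX.le
  rw [← mul_div_assoc, le_div_iff₀ (by positivity)]
  have e : Real.exp X = Real.exp (X / 2) * Real.exp (X / 2) := by
    rw [← Real.exp_add]; congr 1; ring
  rw [e]
  have := mul_le_mul_of_nonneg_left h (Real.exp_pos (X / 2)).le
  calc Real.exp (X / 2) * X ^ A ≤ Real.exp (X / 2) * (2 ^ A * A.factorial * Real.exp (X / 2)) := this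
    _ = _ := by ring

theorem psi_exp (A : ℕ) : ∃ C : ℝ, 0 < C ∧ ∀ X : ℝ, 5 ≤ X →
    |Chebyshev.psi (Real.exp X) - Real.exp X| ≤ C * (Real.exp X / X ^ A) := by
  obtain ⟨C1, hC1, h1⟩ := psi_upper (3 * A)
  obtain ⟨C2, hC2, h2⟩ := psi_lower (3 * A)
  set C : ℝ := C1 + C2 with hC
  have hC0 : 0 < C := by linarith
  set K : ℝ := 2 ^ A * A.factorial with hK
  have hK0 : 0 < K := by positivity
  have he2 : Real.exp 2 ≤ 9 := by
    have e : Real.exp 2 = Real.exp 1 * Real.exp 1 := by rw [← Real.exp_add]; norm_num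
    have h3 := Real.exp_one_lt_d9
    have h4 := Real.exp_pos 1
    rw [e]
    nlinarith
  refine ⟨C * (1 + 2 * K + 2 ^ (3 * A) * C ^ 2) + 60 * K + 10, by positivity, fun X hX => ?_⟩
  have hX0 : 0 < X := by linarith
  set dl : ℝ := 1 / (C * X ^ A) with hdl
  have hXA : 1 ≤ X ^ A := one_le_pow₀ (by linarith)
  have hXA0 : 0 < X ^ A := by linarith
  have hdl0 : 0 < dl := by positivity
  have hCdl : C * dl ≤ 1 := by
    rw [hdl, mul_one_div, div_le_one (by positivity)]
    nlinarith
  have hC1d : C1 * dl ≤ 1 := by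
    refine le_trans ?_ hCdl
    apply mul_le_mul_of_nonneg_right _ hdl0.le
    rw [hC]; linarith
  have hC2d : C2 * dl ≤ 1 := by
    refine le_trans ?_ hCdl
    apply mul_le_mul_of_nonneg_right _ hdl0.le
    rw [hC]; linarith
  have hd1 : dl ≤ 1 := by nlinarith
  set Q : ℝ := Real.exp X / X ^ A with hQ
  have hQ0 : 0 < Q := by positivity
  have hex : 0 < Real.exp X := Real.exp_pos X
  have b1 : dl * Real.exp X ≤ Q := by
    rw [hdl, hQ, div_mul_eq_mul_div, one_mul]
    apply div_le_div_of_nonneg_left hex.le hXA0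
    have : 1 ≤ C := by linarith
    nlinarith
  have hhalf := half_exp A hX0
  rw [← hK, ← hQ] at hhalf
  have b2 : X ≤ 2 * K * Q := by
    have h3 := Real.add_one_le_exp (X / 2)
    calc X ≤ 2 * Real.exp (X / 2) := by linarith
      _ ≤ 2 * (K * Q) := by linarith
      _ = _ := by ring
  have b3 : Real.exp X / (X ^ (3 * A) * dl ^ 2) = C ^ 2 * Q := by
    rw [hdl, hQ, show 3 * A = A + 2 * A by ring, pow_add, pow_mul' X 2 A]
    field_simp
  have b4 : Real.exp (X / 2 + 2) ≤ 9 * K * Q := by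
    rw [Real.exp_add]
    calc Real.exp (X / 2) * Real.exp 2 ≤ (K * Q) * 9 :=
          mul_le_mul hhalf he2 (Real.exp_pos _).le (by positivity)
      _ = _ := by ring
  have hup := h1 dl X (by linarith) hdl0 hC1d
  have hlo := h2 dl (X - dl) (by linarith) hdl0 hC2d
  rw [sub_add_cancel] at hlo
  have hX' : Real.exp (X - dl) ≤ Real.exp X := Real.exp_le_exp.mpr (by linarith)
  have hX'' : Real.exp X - dl * Real.exp X ≤ Real.exp (X - dl) := by
    have h3 := Real.add_one_le_exp (-dl)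
    rw [sub_eq_add_neg X dl, Real.exp_add]
    nlinarith
  have h2A : (1 : ℝ) ≤ 2 ^ (3 * A) := one_le_pow₀ (by norm_num)
  have b3' : Real.exp (X - dl) / ((X - dl) ^ (3 * A) * dl ^ 2) ≤ 2 ^ (3 * A) * C ^ 2 * Q := by
    rw [mul_assoc, ← b3, ← mul_div_assoc, div_le_div_iff₀ (by have : 0 < X - dl := by linarith
                                                              positivity) (by positivity)]
    have h3 : X ^ (3 * A) ≤ 2 ^ (3 * A) * (X - dl) ^ (3 * A) := by
      rw [← mul_pow]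
      exact pow_le_pow_left₀ hX0.le (by linarith) _
    calc Real.exp (X - dl) * (X ^ (3 * A) * dl ^ 2) ≤
          Real.exp X * ((2 ^ (3 * A) * (X - dl) ^ (3 * A)) * dl ^ 2) := by
          gcongr
      _ = _ := by ring
  have b4' : Real.exp ((X - dl) / 2 + 2) ≤ 9 * K * Q :=
    le_trans (Real.exp_le_exp.mpr (by linarith)) b4
  have b5 : (1 : ℝ) ≤ 2 * K * Q := by linarith
  have hCQ : 0 < C * Q := by positivity
  have hup2 : C1 * (dl * Real.exp X + X + Real.exp X / (X ^ (3 * A) * dl ^ 2)) ≤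
      C * (Q + 2 * K * Q + 2 ^ (3 * A) * C ^ 2 * Q) := by
    rw [b3]
    have h3 : C ^ 2 * Q ≤ 2 ^ (3 * A) * C ^ 2 * Q := by
      have : 0 < C ^ 2 * Q := by positivity
      nlinarith
    apply mul_le_mul (by linarith) (by linarith) (by positivity) hC0.le
  have hlo2 : C2 * (dl * Real.exp (X - dl) + (X - dl) +
      Real.exp (X - dl) / ((X - dl) ^ (3 * A) * dl ^ 2)) ≤
      C * (Q + 2 * K * Q + 2 ^ (3 * A) * C ^ 2 * Q) := by
    have h3 : dl * Real.exp (X - dl) ≤ Q := le_trans (mul_le_mul_of_nonneg_left hX' hdl0.le) b1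
    have hXd : 0 < X - dl := by linarith
    apply mul_le_mul (by linarith) (by linarith) (by positivity) hC0.le
  have hKQ : 0 < K * Q := by positivity
  rw [abs_le]
  constructor
  · nlinarith
  · nlinarith

/-- prime number theorem with error term, `ψ` -/
theorem psi_pnt (A : ℕ) : ∃ C : ℝ, 0 < C ∧ ∀ x : ℝ, 2 ≤ x →
    |Chebyshev.psi x - x| ≤ C * x / (Real.log x) ^ A := by
  obtain ⟨C, hC, h⟩ := psi_exp A
  refine ⟨C + 7 * 5 ^ A, by positivity, fun x hx => ?_⟩
  have hx0 : 0 < x := by linarith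
  have hl0 : 0 < Real.log x := Real.log_pos (by linarith)
  rcases le_total 5 (Real.log x) with h5 | h5
  · have h1 := h (Real.log x) h5
    rw [Real.exp_log hx0] at h1
    refine h1.trans ?_
    rw [← mul_div_assoc]
    gcongr
    have : (0 : ℝ) < 7 * 5 ^ A := by positivity
    linarith
  · have h1 : |Chebyshev.psi x - x| ≤ 7 * x := by
      have h2 := Chebyshev.psi_nonneg x
      have h3 := Chebyshev.psi_le_const_mul_self hx0.le
      have h4 : Real.log 4 ≤ 2 := by
        rw [show (4 : ℝ) = 2 ^ 2 by norm_num, Real.log_pow]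
        have := Real.log_two_lt_d9
        push_cast
        linarith
      rw [abs_le]
      constructor <;> nlinarith
    refine h1.trans ?_
    rw [le_div_iff₀ (by positivity)]
    have h6 : (Real.log x) ^ A ≤ 5 ^ A := pow_le_pow_left₀ hl0.le h5 A
    calc 7 * x * (Real.log x) ^ A ≤ 7 * x * 5 ^ A := by gcongr
      _ ≤ (C + 7 * 5 ^ A) * x := by nlinarith [mul_pos hC hx0]

/-- prime number theorem with error term, `θ` -/
theorem theta_pnt (A : ℕ) : ∃ C : ℝ, 0 < C ∧ ∀ x : ℝ, 2 ≤ x →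
    |Chebyshev.theta x - x| ≤ C * x / (Real.log x) ^ A := by
  obtain ⟨C, hC, h⟩ := psi_pnt A
  obtain ⟨D, hD⟩ := Chebyshev.psi_sub_theta_le_mul_sqrt
  set K : ℝ := 2 ^ A * A.factorial with hK
  have hK0 : 0 < K := by positivity
  refine ⟨C + |D| * K, by positivity, fun x hx => ?_⟩
  have hx0 : 0 < x := by linarith
  have hl0 : 0 < Real.log x := Real.log_pos (by linarith)
  have h1 := h x hx
  have h2 := hD x
  have h3 := Chebyshev.theta_le_psi x
  have h4 := half_exp A hl0
  rw [Real.exp_log hx0, ← hK] at h4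
  have h5 : Real.sqrt x = Real.exp (Real.log x / 2) := by
    rw [Real.exp_half, Real.exp_log hx0]
  rw [← h5] at h4
  have h6 : D * Real.sqrt x ≤ |D| * K * x / (Real.log x) ^ A := by
    calc D * Real.sqrt x ≤ |D| * Real.sqrt x :=
          mul_le_mul_of_nonneg_right (le_abs_self D) (Real.sqrt_nonneg x)
      _ ≤ |D| * (K * (x / (Real.log x) ^ A)) := mul_le_mul_of_nonneg_left h4 (abs_nonneg D)
      _ = _ := by ring
  have h7 : (C + |D| * K) * x / (Real.log x) ^ A = C * x / (Real.log x) ^ A +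
      |D| * K * x / (Real.log x) ^ A := by ring
  rw [h7]
  obtain ⟨h8, h9⟩ := abs_le.mp h1
  rw [abs_le]
  have h10 : 0 ≤ |D| * K * x / (Real.log x) ^ A := by positivity
  constructor <;> linarith

/-- prime number theorem with error term, `π` -/
theorem pi_pnt : ∃ C x0 : ℝ, 0 < C ∧ ∀ x : ℝ, x0 ≤ x →
    |(Nat.primeCounting ⌊x⌋₊ : ℝ) - x / Real.log x| ≤ C * x / (Real.log x) ^ 2 := by
  obtain ⟨C, hC, h⟩ := theta_pnt 1
  obtain ⟨D, hD⟩ := Chebyshev.primeCounting_sub_theta_div_log_isBigO.bound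
  obtain ⟨x1, hx1⟩ := eventually_atTop.mp hD
  refine ⟨C + |D|, max x1 2, by positivity, fun x hx => ?_⟩
  have hx2 : 2 ≤ x := le_trans (le_max_right _ _) hx
  have hx0 : 0 < x := by linarith
  have hl0 : 0 < Real.log x := Real.log_pos (by linarith)
  have h1 := h x hx2
  rw [pow_one] at h1
  have h2 := hx1 x (le_trans (le_max_left _ _) hx)
  rw [Real.norm_eq_abs, Real.norm_of_nonneg (by positivity : 0 ≤ x / (Real.log x) ^ 2)] at h2
  have h3 : |Chebyshev.theta x / Real.log x - x / Real.log x| ≤ C * x / (Real.log x) ^ 2 := by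
    rw [← sub_div, abs_div, abs_of_pos hl0, div_le_iff₀ hl0]
    refine h1.trans (le_of_eq ?_)
    field_simp
  calc |(Nat.primeCounting ⌊x⌋₊ : ℝ) - x / Real.log x|
      = |((Nat.primeCounting ⌊x⌋₊ : ℝ) - Chebyshev.theta x / Real.log x) +
        (Chebyshev.theta x / Real.log x - x / Real.log x)| := by congr 1; ring
    _ ≤ |(Nat.primeCounting ⌊x⌋₊ : ℝ) - Chebyshev.theta x / Real.log x| +
        |Chebyshev.theta x / Real.log x - x / Real.log x| := abs_add_le _ _
    _ ≤ D * (x / (Real.log x) ^ 2) + C * x / (Real.log x) ^ 2 := add_le_add h2 h3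
    _ ≤ |D| * (x / (Real.log x) ^ 2) + C * x / (Real.log x) ^ 2 := by
        have : 0 ≤ x / (Real.log x) ^ 2 := by positivity
        have := mul_le_mul_of_nonneg_right (le_abs_self D) this
        linarith
    _ = _ := by ring

end PNTE
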