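import Pool.Agent.H85.MTA.LUP

/-!
# Prime number theorem with error term, part 1

Upper bounds for the derivatives of the Riemann zeta function on `1 < Re s ≤ 2`, `|Im s| ≥ 1`.
-/

set_option autoImplicit false

namespace PNTE
open Finset MTA Filter

/-- `(log u)^j u^(-s)` -/
noncomputable def Fz (j : ℕ) (s : ℂ) (u : ℝ) : ℂ := (Real.log u : ℂ) ^ j * (u : ℂ) ^ (-s)

/-- `(log u)^j u^(1-s)` -/
noncomputable def hz (j : ℕ) (s : ℂ) (u : ℝ) : ℂ := (Real.log u : ℂ) ^ j * (u : ℂ) ^ (1 - s)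

theorem hasDerivAt_logpow (j : ℕ) {x : ℝ} (hx : 0 < x) :
    HasDerivAt (fun u : ℝ => (Real.log u : ℂ) ^ j) ((j : ℂ) * (Real.log x : ℂ) ^ (j - 1) * (x : ℂ)⁻¹) x := by
  have h1 : HasDerivAt (fun u : ℝ => (Real.log u : ℂ)) ((x⁻¹ : ℝ) : ℂ) x :=
    (Real.hasDerivAt_log hx.ne').ofReal_comp
  have h2 := h1.pow j
  push_cast at h2
  exact h2

theorem hasDerivAt_cpow (w : ℂ) {x : ℝ} (hx : 0 < x) :
    HasDerivAt (fun u : ℝ => (u : ℂ) ^ w) (w * (x : ℂ) ^ (w - 1)) x := by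
  have h1 : HasDerivAt (fun z : ℂ => z ^ w) (w * (x : ℂ) ^ (w - 1)) (x : ℂ) := by
    have := (hasDerivAt_id (x : ℂ)).cpow_const (c := w)
      (by simp only [id]; exact Complex.ofReal_mem_slitPlane.mpr hx)
    simpa using this
  exact h1.comp_ofReal

theorem hasDerivAt_Fz (j : ℕ) (s : ℂ) {x : ℝ} (hx : 0 < x) :
    HasDerivAt (Fz j s) ((j : ℂ) * (Real.log x : ℂ) ^ (j - 1) * (x : ℂ)⁻¹ * (x : ℂ) ^ (-s) +
      (Real.log x : ℂ) ^ j * (-s * (x : ℂ) ^ (-s - 1))) x :=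
  (hasDerivAt_logpow j hx).mul (hasDerivAt_cpow (-s) hx)

theorem hasDerivAt_hz (j : ℕ) (s : ℂ) {x : ℝ} (hx : 0 < x) :
    HasDerivAt (hz j s) ((1 - s) * Fz j s x + j * Fz (j - 1) s x) x := by
  have h := (hasDerivAt_logpow j hx).mul (hasDerivAt_cpow (1 - s) hx)
  refine HasDerivAt.congr_deriv h ?_
  unfold Fz
  have hx0 : (x : ℂ) ≠ 0 := by exact_mod_cast hx.ne'
  have e1 : (x : ℂ) ^ (1 - s - 1) = (x : ℂ) ^ (-s) := by congr 1; ring
  have e2 : (x : ℂ) ^ (1 - s) = x * (x : ℂ) ^ (-s) := by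
    rw [sub_eq_add_neg, Complex.cpow_add _ _ hx0, Complex.cpow_one]
  rw [e1, e2]
  field_simp
  ring

theorem norm_Fz_deriv (j : ℕ) (s : ℂ) (hs : 1 < s.re) (n : ℕ) (hn : 2 ≤ n) (x : ℝ)
    (hx1 : (n : ℝ) ≤ x) (hx2 : x ≤ n + 1) :
    ‖(j : ℂ) * (Real.log x : ℂ) ^ (j - 1) * (x : ℂ)⁻¹ * (x : ℂ) ^ (-s) +
      (Real.log x : ℂ) ^ j * (-s * (x : ℂ) ^ (-s - 1))‖ ≤
      (j + ‖s‖) * ((Real.log (n + 1)) ^ j / (n : ℝ) ^ 2) := by
  have hn2 : (2 : ℝ) ≤ n := by exact_mod_cast hn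
  have hn0 : (0 : ℝ) < n := by linarith
  have hx0 : 0 < x := by linarith
  have hxc : (x : ℂ) ≠ 0 := by exact_mod_cast hx0.ne'
  have hl0 : 0 ≤ Real.log x := Real.log_nonneg (by linarith)
  have hlx : Real.log x ≤ Real.log (n + 1) := Real.log_le_log hx0 hx2
  have hl2 : 1 ≤ Real.log (n + 1) := by
    rw [Real.le_log_iff_exp_le (by linarith)]
    have := Real.exp_one_lt_d9
    linarith
  have hp : ‖(x : ℂ) ^ (-s - 1)‖ ≤ 1 / (n : ℝ) ^ 2 := by
    rw [Complex.norm_cpow_eq_rpow_re_of_pos hx0]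
    have h2 : (-s - 1).re ≤ -2 := by simp; linarith
    calc x ^ (-s - 1).re ≤ x ^ (-2 : ℝ) := Real.rpow_le_rpow_of_exponent_le (by linarith) h2
      _ ≤ (n : ℝ) ^ (-2 : ℝ) := Real.rpow_le_rpow_of_nonpos hn0 hx1 (by norm_num)
      _ = 1 / (n : ℝ) ^ 2 := by
          rw [Real.rpow_neg hn0.le, one_div]; norm_cast
  have e1 : (x : ℂ)⁻¹ * (x : ℂ) ^ (-s) = (x : ℂ) ^ (-s - 1) := by
    rw [Complex.cpow_sub _ _ hxc, Complex.cpow_one]
    field_simp
  have e2 : (j : ℂ) * (Real.log x : ℂ) ^ (j - 1) * (x : ℂ)⁻¹ * (x : ℂ) ^ (-s) =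
      (j : ℂ) * (Real.log x : ℂ) ^ (j - 1) * (x : ℂ) ^ (-s - 1) := by
    rw [mul_assoc _ ((x : ℂ)⁻¹) _, e1]
  rw [e2]
  have hpj : (Real.log x) ^ (j - 1) ≤ (Real.log (n + 1)) ^ j := by
    calc (Real.log x) ^ (j - 1) ≤ (Real.log (n + 1)) ^ (j - 1) := pow_le_pow_left₀ hl0 hlx _
      _ ≤ (Real.log (n + 1)) ^ j := pow_le_pow_right₀ hl2 (by omega)
  have hpj' : (Real.log x) ^ j ≤ (Real.log (n + 1)) ^ j := pow_le_pow_left₀ hl0 hlx _
  refine (norm_add_le _ _).trans ?_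
  rw [norm_mul, norm_mul, norm_mul, norm_mul, norm_neg, norm_pow, norm_pow, Complex.norm_real,
    Real.norm_of_nonneg hl0, Complex.norm_natCast]
  have hj0 : (0 : ℝ) ≤ j := Nat.cast_nonneg j
  have hs0 := norm_nonneg s
  have hP0 : 0 ≤ (Real.log (n + 1)) ^ j := by positivity
  calc (j : ℝ) * (Real.log x) ^ (j - 1) * ‖(x : ℂ) ^ (-s - 1)‖ +
        (Real.log x) ^ j * (‖s‖ * ‖(x : ℂ) ^ (-s - 1)‖)
      ≤ (j : ℝ) * (Real.log (n + 1)) ^ j * (1 / (n : ℝ) ^ 2) +
        (Real.log (n + 1)) ^ j * (‖s‖ * (1 / (n : ℝ) ^ 2)) := by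
        gcongr
    _ = _ := by ring

theorem Fz_sub (j : ℕ) (s : ℂ) (hs : 1 < s.re) (n : ℕ) (hn : 2 ≤ n) (x : ℝ)
    (hx1 : (n : ℝ) ≤ x) (hx2 : x ≤ n + 1) :
    ‖Fz j s x - Fz j s n‖ ≤ (j + ‖s‖) * ((Real.log (n + 1)) ^ j / (n : ℝ) ^ 2) := by
  have hn2 : (2 : ℝ) ≤ n := by exact_mod_cast hn
  have hd : ∀ u ∈ Set.Icc (n : ℝ) (n + 1), HasDerivWithinAt (Fz j s)
      ((j : ℂ) * (Real.log u : ℂ) ^ (j - 1) * (u : ℂ)⁻¹ * (u : ℂ) ^ (-s) +
      (Real.log u : ℂ) ^ j * (-s * (u : ℂ) ^ (-s - 1))) (Set.Icc (n : ℝ) (n + 1)) u :=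
    fun u hu => (hasDerivAt_Fz j s (by have := hu.1; linarith)).hasDerivWithinAt
  have h := norm_image_sub_le_of_norm_deriv_le_segment' hd
    (fun u hu => norm_Fz_deriv j s hs n hn u hu.1 hu.2.le) x ⟨hx1, hx2⟩
  refine h.trans ?_
  have hl : 0 ≤ Real.log ((n : ℝ) + 1) := Real.log_nonneg (by linarith)
  have h0 : 0 ≤ (j + ‖s‖) * ((Real.log (n + 1)) ^ j / (n : ℝ) ^ 2) := by positivity
  calc _ ≤ (j + ‖s‖) * ((Real.log (n + 1)) ^ j / (n : ℝ) ^ 2) * 1 :=
        mul_le_mul_of_nonneg_left (by linarith) h0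
    _ = _ := mul_one _

/-- one step -/
theorem hz_step (j : ℕ) (s : ℂ) (hs : 1 < s.re) (n : ℕ) (hn : 2 ≤ n) :
    ‖hz j s (n + 1 : ℕ) - hz j s n - ((1 - s) * Fz j s n + j * Fz (j - 1) s n)‖ ≤
      (‖1 - s‖ + j) * (j + ‖s‖) * ((Real.log (n + 1)) ^ j / (n : ℝ) ^ 2) := by
  have hn2 : (2 : ℝ) ≤ n := by exact_mod_cast hn
  set c : ℂ := (1 - s) * Fz j s n + j * Fz (j - 1) s n with hc
  have hl1 : 1 ≤ Real.log ((n : ℝ) + 1) := by
    rw [Real.le_log_iff_exp_le (by linarith)]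
    have := Real.exp_one_lt_d9
    linarith
  have hd : ∀ u ∈ Set.Icc (n : ℝ) (n + 1), HasDerivWithinAt (fun u : ℝ => hz j s u - (u : ℂ) * c)
      (((1 - s) * Fz j s u + j * Fz (j - 1) s u) - 1 * c) (Set.Icc (n : ℝ) (n + 1)) u := by
    intro u hu
    have hu0 : 0 < u := by have := hu.1; linarith
    have h1 : HasDerivAt (fun u : ℝ => (u : ℂ) * c) (1 * c) u := by
      have := ((hasDerivAt_id u).ofReal_comp).mul_const c
      simpa using this
    exact ((hasDerivAt_hz j s hu0).sub h1).hasDerivWithinAt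
  have hb : ∀ u ∈ Set.Ico (n : ℝ) (n + 1), ‖((1 - s) * Fz j s u + j * Fz (j - 1) s u) - 1 * c‖ ≤
      (‖1 - s‖ + j) * (j + ‖s‖) * ((Real.log (n + 1)) ^ j / (n : ℝ) ^ 2) := by
    intro u hu
    have e : ((1 - s) * Fz j s u + j * Fz (j - 1) s u) - 1 * c =
        (1 - s) * (Fz j s u - Fz j s n) + j * (Fz (j - 1) s u - Fz (j - 1) s n) := by
      rw [hc]; ring
    rw [e]
    refine (norm_add_le _ _).trans ?_
    rw [norm_mul, norm_mul, Complex.norm_natCast]
    have h1 := Fz_sub j s hs n hn u hu.1 hu.2.le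
    have h2 := Fz_sub (j - 1) s hs n hn u hu.1 hu.2.le
    have h3 : (((j - 1 : ℕ) : ℝ) + ‖s‖) * ((Real.log (n + 1)) ^ (j - 1) / (n : ℝ) ^ 2) ≤
        (j + ‖s‖) * ((Real.log (n + 1)) ^ j / (n : ℝ) ^ 2) := by
      have h4 : ((j - 1 : ℕ) : ℝ) ≤ j := by exact_mod_cast Nat.sub_le j 1
      have h5 : (Real.log ((n : ℝ) + 1)) ^ (j - 1) ≤ (Real.log ((n : ℝ) + 1)) ^ j :=
        pow_le_pow_right₀ hl1 (Nat.sub_le j 1)
      gcongr
    have hj0 : (0 : ℝ) ≤ j := Nat.cast_nonneg j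
    calc ‖1 - s‖ * ‖Fz j s u - Fz j s n‖ + j * ‖Fz (j - 1) s u - Fz (j - 1) s n‖
        ≤ ‖1 - s‖ * ((j + ‖s‖) * ((Real.log (n + 1)) ^ j / (n : ℝ) ^ 2)) +
          j * ((j + ‖s‖) * ((Real.log (n + 1)) ^ j / (n : ℝ) ^ 2)) :=
          add_le_add (mul_le_mul_of_nonneg_left h1 (norm_nonneg _))
            (mul_le_mul_of_nonneg_left (h2.trans h3) hj0)
      _ = _ := by ring
  have h := norm_image_sub_le_of_norm_deriv_le_segment' hd hb (n + 1) ⟨by linarith, le_rfl⟩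
  rw [add_sub_cancel_left, mul_one] at h
  refine le_trans (le_of_eq ?_) h
  congr 1
  push_cast
  ring

/-- partial sums of the tail -/
noncomputable def tau (j : ℕ) (s : ℂ) (N K : ℕ) : ℂ := ∑ n ∈ Ico N K, Fz j s n

theorem Fz_eq (j : ℕ) (s : ℂ) (n : ℕ) : Fz j s n = LUP_f j s n := by
  unfold Fz LUP_f
  push_cast
  rfl

theorem tele (j : ℕ) (s : ℂ) (hs : 1 < s.re) (N K : ℕ) (hN : 3 ≤ N) (hK : N ≤ K) :
    ‖hz j s K - hz j s N - ((1 - s) * tau j s N K + j * tau (j - 1) s N K)‖ ≤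
      (‖1 - s‖ + j) * (j + ‖s‖) * (8 * (2 * j + 3) ^ j * ((Real.log N) ^ j / N)) := by
  have e : hz j s K - hz j s N - ((1 - s) * tau j s N K + j * tau (j - 1) s N K) =
      ∑ n ∈ Ico N K, (hz j s (n + 1 : ℕ) - hz j s n - ((1 - s) * Fz j s n + j * Fz (j - 1) s n)) := by
    unfold tau
    rw [mul_sum, mul_sum, ← sum_add_distrib, Finset.sum_sub_distrib]
    congr 1
    clear hs hN
    induction K, hK using Nat.le_induction with
    | base => simp
    | succ K hK ih =>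
      rw [sum_Ico_succ_top hK, ← ih]
      ring
  rw [e]
  calc _ ≤ ∑ n ∈ Ico N K, (‖1 - s‖ + j) * (j + ‖s‖) * ((Real.log (n + 1)) ^ j / (n : ℝ) ^ 2) := by
        refine norm_sum_le_of_le _ fun n hn => ?_
        rw [mem_Ico] at hn
        exact hz_step j s hs n (by omega)
    _ = (‖1 - s‖ + j) * (j + ‖s‖) * ∑ n ∈ Ico N K, (Real.log (n + 1)) ^ j / (n : ℝ) ^ 2 := by
        rw [mul_sum]
    _ ≤ _ := by
        apply mul_le_mul_of_nonneg_left (LUP_V j N K hN hK)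
        positivity

theorem hz_norm (j : ℕ) (s : ℂ) {x : ℝ} (hx : 1 ≤ x) :
    ‖hz j s x‖ = (Real.log x) ^ j * x ^ (1 - s.re) := by
  unfold hz
  rw [norm_mul, norm_pow, Complex.norm_real, Real.norm_of_nonneg (Real.log_nonneg hx),
    Complex.norm_cpow_eq_rpow_re_of_pos (by linarith)]
  simp

theorem hz_tendsto (j : ℕ) (s : ℂ) (hs : 1 < s.re) :
    Tendsto (fun K : ℕ => ‖hz j s K‖) atTop (nhds 0) := by
  have h0 : Tendsto (fun x : ℝ => (Real.log x) ^ j * x ^ (1 - s.re)) atTop (nhds 0) := by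
    have h1 := (isLittleO_log_rpow_rpow_atTop (j : ℝ) (show 0 < s.re - 1 by linarith)).tendsto_div_nhds_zero
    refine h1.congr' ?_
    filter_upwards [eventually_gt_atTop (1 : ℝ)] with x hx
    rw [Real.rpow_natCast, div_eq_mul_inv, ← Real.rpow_neg (by linarith)]
    congr 2
    ring
  have h2 : Tendsto (fun K : ℕ => (Real.log (K : ℝ)) ^ j * (K : ℝ) ^ (1 - s.re)) atTop (nhds 0) :=
    h0.comp tendsto_natCast_atTop_atTop
  refine h2.congr' ?_
  filter_upwards [eventually_ge_atTop 1] with K hK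
  rw [hz_norm j s (by exact_mod_cast hK)]

theorem Fz_summable (j : ℕ) (s : ℂ) (hs : 1 < s.re) : Summable (fun n : ℕ => Fz j s n) := by
  have h1 : Summable (fun n : ℕ => ‖Fz j s (n + 1 : ℕ)‖) := by
    have h2 : Summable (fun n : ℕ => (n : ℝ) ^ (-((1 + s.re) / 2))) := by
      rw [Real.summable_nat_rpow]
      linarith
    have hε : 0 < (s.re - 1) / 2 / (j + 1) := div_pos (by linarith) (by positivity)
    set ε := (s.re - 1) / 2 / (j + 1) with hε'
    have h3 := ((summable_nat_add_iff 1).mpr h2).mul_left ((1 / ε) ^ j)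
    refine Summable.of_nonneg_of_le (fun n => norm_nonneg _) (fun n => ?_) h3
    have hn1 : (1 : ℝ) ≤ (n + 1 : ℕ) := by exact_mod_cast Nat.le_add_left 1 n
    have hn0 : (0 : ℝ) < (n + 1 : ℕ) := by linarith
    unfold Fz
    rw [norm_mul, norm_pow, Complex.norm_real, Real.norm_of_nonneg (Real.log_nonneg hn1),
      Complex.norm_cpow_eq_rpow_re_of_pos hn0]
    have h4 : Real.log (n + 1 : ℕ) ≤ ((n + 1 : ℕ) : ℝ) ^ ε / ε := Real.log_natCast_le_rpow_div _ hε
    calc (Real.log (n + 1 : ℕ)) ^ j * ((n + 1 : ℕ) : ℝ) ^ (-s).re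
        ≤ (((n + 1 : ℕ) : ℝ) ^ ε / ε) ^ j * ((n + 1 : ℕ) : ℝ) ^ (-s).re := by
          apply mul_le_mul_of_nonneg_right _ (by positivity)
          exact pow_le_pow_left₀ (Real.log_nonneg hn1) h4 j
      _ = (1 / ε) ^ j * (((n + 1 : ℕ) : ℝ) ^ (ε * j) * ((n + 1 : ℕ) : ℝ) ^ (-s).re) := by
          rw [div_pow, ← Real.rpow_mul_natCast (by positivity), one_div, inv_pow]
          ring
      _ ≤ (1 / ε) ^ j * ((n + 1 : ℕ) : ℝ) ^ (-((1 + s.re) / 2)) := by
          apply mul_le_mul_of_nonneg_left _ (by positivity)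
          rw [← Real.rpow_add hn0]
          apply Real.rpow_le_rpow_of_exponent_le hn1
          have h5 : ε * j ≤ (s.re - 1) / 2 := by
            rw [hε', div_mul_eq_mul_div, div_le_iff₀ (by positivity)]
            have : (0 : ℝ) ≤ j := Nat.cast_nonneg j
            nlinarith
          rw [Complex.neg_re]
          linarith
  have h2 : Summable (fun n : ℕ => Fz j s (n + 1 : ℕ)) := h1.of_norm
  exact (summable_nat_add_iff 1).mp h2

/-- the limit of the tails -/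
theorem tail_bound (j : ℕ) : ∃ C : ℝ, 0 < C ∧ ∀ s : ℂ, 1 < s.re → s.re ≤ 2 → 1 ≤ |s.im| →
    ∀ N : ℕ, 3 ≤ N → |s.im| + 3 ≤ N →
    ∀ T : ℂ, Tendsto (fun K => tau j s N K) atTop (nhds T) → ‖T‖ ≤ C * (Real.log N) ^ j := by
  induction j with
  | zero =>
    refine ⟨1 + 8 * 16, by norm_num, fun s hs1 hs2 ht N hN hNt T hT => ?_⟩
    rw [pow_zero, mul_one]
    have hN0 : (0 : ℝ) < N := by have : 0 < N := by omega
                                 exact_mod_cast this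
    have h1 : Tendsto (fun K => ‖(1 - s) * tau 0 s N K‖) atTop (nhds ‖(1 - s) * T‖) :=
      (hT.const_mul _).norm
    have h2 : Tendsto (fun K : ℕ => ‖hz 0 s K‖ + (1 + ‖1 - s‖ * ‖s‖ * (8 * (1 / N)))) atTop
        (nhds (0 + (1 + ‖1 - s‖ * ‖s‖ * (8 * (1 / N))))) := (hz_tendsto 0 s hs1).add_const _
    have h3 : ‖(1 - s) * T‖ ≤ 0 + (1 + ‖1 - s‖ * ‖s‖ * (8 * (1 / N))) := by
      refine le_of_tendsto_of_tendsto h1 h2 ?_
      filter_upwards [eventually_ge_atTop N] with K hK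
      have h4 := tele 0 s hs1 N K hN hK
      simp only [Nat.cast_zero, zero_mul, add_zero, mul_zero, zero_add, pow_zero, mul_one] at h4
      have h5 : ‖hz 0 s N‖ ≤ 1 := by
        rw [hz_norm 0 s (by have : (3 : ℝ) ≤ N := by exact_mod_cast hN
                            linarith), pow_zero, one_mul]
        apply Real.rpow_le_one_of_one_le_of_nonpos _ (by linarith)
        have : (3 : ℝ) ≤ N := by exact_mod_cast hN
        linarith
      calc ‖(1 - s) * tau 0 s N K‖ = ‖hz 0 s K - hz 0 s N -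
            (hz 0 s K - hz 0 s N - (1 - s) * tau 0 s N K)‖ := by congr 1; ring
        _ ≤ ‖hz 0 s K - hz 0 s N‖ + ‖hz 0 s K - hz 0 s N - (1 - s) * tau 0 s N K‖ := norm_sub_le _ _
        _ ≤ (‖hz 0 s K‖ + ‖hz 0 s N‖) + ‖1 - s‖ * ‖s‖ * (8 * (1 / N)) :=
            add_le_add (norm_sub_le _ _) h4
        _ ≤ _ := by linarith
    rw [norm_mul, zero_add] at h3
    have ht1 : |s.im| ≤ ‖1 - s‖ := by
      have := Complex.abs_im_le_norm (1 - s)
      simpa using this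
    have hs3 : ‖s‖ ≤ 2 + |s.im| := by
      have := Complex.norm_le_abs_re_add_abs_im s
      rw [abs_of_pos (by linarith : 0 < s.re)] at this
      linarith
    have hd : 0 < ‖1 - s‖ := by linarith
    have h6 : ‖s‖ * (1 / N) ≤ 1 := by
      rw [mul_one_div, div_le_one hN0]
      linarith
    have h7 : ‖1 - s‖ * ‖T‖ ≤ ‖1 - s‖ * (1 + 8 * 16) := by
      calc ‖1 - s‖ * ‖T‖ ≤ 1 + ‖1 - s‖ * 8 * (‖s‖ * (1 / N)) := by
            refine h3.trans (le_of_eq ?_)
            ring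
        _ ≤ 1 + ‖1 - s‖ * 8 * 1 := by gcongr
        _ ≤ _ := by nlinarith
    exact le_of_mul_le_mul_left h7 hd
  | succ j ih =>
    obtain ⟨C, hC, hCb⟩ := ih
    set J : ℕ := j + 1 with hJ
    refine ⟨1 + J * C + 32 * (J + 1) ^ 2 * (2 * J + 3) ^ J, by positivity,
      fun s hs1 hs2 ht N hN hNt T hT => ?_⟩
    have hN3 : (3 : ℝ) ≤ N := by exact_mod_cast hN
    have hN0 : (0 : ℝ) < N := by linarith
    have hl : 1 ≤ Real.log N := by
      rw [Real.le_log_iff_exp_le hN0]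
      have := Real.exp_one_lt_d9
      linarith
    -- the previous tail converges
    have hsum := (Fz_summable j s hs1).hasSum.tendsto_sum_nat
    set T' : ℂ := (∑' n : ℕ, Fz j s n) - ∑ n ∈ range N, Fz j s n with hT'
    have hT't : Tendsto (fun K => tau j s N K) atTop (nhds T') := by
      have h1 := hsum.sub_const (∑ n ∈ range N, Fz j s n)
      refine h1.congr' ?_
      filter_upwards [eventually_ge_atTop N] with K hK
      unfold tau
      rw [Finset.sum_Ico_eq_sub _ hK]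
    have hT'b := hCb s hs1 hs2 ht N hN hNt T' hT't
    set E : ℝ := (‖1 - s‖ + J) * (J + ‖s‖) * (8 * (2 * J + 3) ^ J * ((Real.log N) ^ J / N)) with hE
    have h1 : Tendsto (fun K => ‖(1 - s) * tau J s N K + J * tau j s N K‖) atTop
        (nhds ‖(1 - s) * T + J * T'‖) := ((hT.const_mul _).add (hT't.const_mul _)).norm
    have h2 : Tendsto (fun K : ℕ => ‖hz J s K‖ + ((Real.log N) ^ J + E)) atTop
        (nhds (0 + ((Real.log N) ^ J + E))) := (hz_tendsto J s hs1).add_const _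
    have h3 : ‖(1 - s) * T + J * T'‖ ≤ 0 + ((Real.log N) ^ J + E) := by
      refine le_of_tendsto_of_tendsto h1 h2 ?_
      filter_upwards [eventually_ge_atTop N] with K hK
      have h4 := tele J s hs1 N K hN hK
      rw [← hE, show J - 1 = j by omega] at h4
      have h5 : ‖hz J s N‖ ≤ (Real.log N) ^ J := by
        rw [hz_norm J s (by linarith)]
        apply mul_le_of_le_one_right (by positivity)
        exact Real.rpow_le_one_of_one_le_of_nonpos (by linarith) (by linarith)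
      calc ‖(1 - s) * tau J s N K + J * tau j s N K‖ = ‖hz J s K - hz J s N -
            (hz J s K - hz J s N - ((1 - s) * tau J s N K + J * tau j s N K))‖ := by congr 1; ring
        _ ≤ ‖hz J s K - hz J s N‖ +
            ‖hz J s K - hz J s N - ((1 - s) * tau J s N K + J * tau j s N K)‖ := norm_sub_le _ _
        _ ≤ (‖hz J s K‖ + ‖hz J s N‖) + E := add_le_add (norm_sub_le _ _) h4
        _ ≤ _ := by linarith
    rw [zero_add] at h3
    have ht1 : |s.im| ≤ ‖1 - s‖ := by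
      have := Complex.abs_im_le_norm (1 - s)
      simpa using this
    have hs3 : ‖s‖ ≤ 2 + |s.im| := by
      have := Complex.norm_le_abs_re_add_abs_im s
      rw [abs_of_pos (by linarith : 0 < s.re)] at this
      linarith
    have hd1 : 1 ≤ ‖1 - s‖ := by linarith
    have hd : 0 < ‖1 - s‖ := by linarith
    have hJ0 : (0 : ℝ) ≤ J := Nat.cast_nonneg J
    have hJ1 : (1 : ℝ) ≤ J := by rw [hJ]; push_cast; linarith [Nat.cast_nonneg (α := ℝ) j]
    have hEb : E ≤ ‖1 - s‖ * (32 * (J + 1) ^ 2 * (2 * J + 3) ^ J * (Real.log N) ^ J) := by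
      have e1 : ‖1 - s‖ + J ≤ ‖1 - s‖ * (J + 1) := by nlinarith
      have e2 : ((J : ℝ) + ‖s‖) / N ≤ J + 1 := by
        rw [div_le_iff₀ hN0]
        nlinarith
      calc E = (‖1 - s‖ + J) * (((J : ℝ) + ‖s‖) / N) * (8 * (2 * J + 3) ^ J * (Real.log N) ^ J) := by
            rw [hE]; ring
        _ ≤ (‖1 - s‖ * (J + 1)) * (J + 1) * (8 * (2 * J + 3) ^ J * (Real.log N) ^ J) := by
            gcongr
        _ ≤ _ := by
            have : 0 ≤ ‖1 - s‖ * ((J + 1) ^ 2 * (2 * J + 3) ^ J * (Real.log N) ^ J) := by positivity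
            nlinarith
    have h6 : ‖1 - s‖ * ‖T‖ ≤ ‖(1 - s) * T + J * T'‖ + J * ‖T'‖ := by
      rw [← norm_mul]
      calc ‖(1 - s) * T‖ = ‖((1 - s) * T + J * T') - J * T'‖ := by congr 1; ring
        _ ≤ _ := by
            refine (norm_sub_le _ _).trans ?_
            rw [norm_mul (J : ℂ), Complex.norm_natCast]
    have hlj : (Real.log N) ^ j ≤ (Real.log N) ^ J := pow_le_pow_right₀ hl (by omega)
    have h7 : ‖1 - s‖ * ‖T‖ ≤ ‖1 - s‖ *
        ((1 + J * C + 32 * (J + 1) ^ 2 * (2 * J + 3) ^ J) * (Real.log N) ^ J) := by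
      have h8 : J * ‖T'‖ ≤ J * (C * (Real.log N) ^ J) :=
        mul_le_mul_of_nonneg_left (hT'b.trans (mul_le_mul_of_nonneg_left hlj hC.le)) hJ0
      have h9 : 0 ≤ (Real.log N) ^ J := by positivity
      have h10 : (Real.log N) ^ J + J * (C * (Real.log N) ^ J) ≤
          ‖1 - s‖ * ((Real.log N) ^ J + J * (C * (Real.log N) ^ J)) := by
        apply le_mul_of_one_le_left _ hd1
        positivity
      calc ‖1 - s‖ * ‖T‖ ≤ ((Real.log N) ^ J + E) + J * (C * (Real.log N) ^ J) := by linarith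
        _ ≤ ‖1 - s‖ * ((Real.log N) ^ J + J * (C * (Real.log N) ^ J)) +
            ‖1 - s‖ * (32 * (J + 1) ^ 2 * (2 * J + 3) ^ J * (Real.log N) ^ J) := by linarith
        _ = _ := by ring
    exact le_of_mul_le_mul_left h7 hd

/-- `‖ζ^(j)(s)‖ ≤ C (log (|t|+3))^(j+1)` -/
theorem zup (j : ℕ) : ∃ C : ℝ, 0 < C ∧ ∀ s : ℂ, 1 < s.re → s.re ≤ 2 → 1 ≤ |s.im| →
    ‖Lj (1 : DirichletCharacter ℂ 1) j s‖ ≤ C * (LL 1 s.im) ^ (j + 1) := by
  obtain ⟨C, hC, hCb⟩ := tail_bound j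
  refine ⟨2 ^ j * (3 + C), by positivity, fun s hs1 hs2 ht => ?_⟩
  set t := s.im with ht'
  set N : ℕ := ⌈|t| + 3⌉₊ with hN
  have hNge : |t| + 3 ≤ N := Nat.le_ceil _
  have hNlt : (N : ℝ) < |t| + 3 + 1 := Nat.ceil_lt_add_one (by positivity)
  have hN3' : (3 : ℝ) ≤ N := by linarith
  have hN3 : 3 ≤ N := by exact_mod_cast hN3'
  have hN0 : (0 : ℝ) < N := by linarith
  set Lg := LL 1 t with hLg
  have hLg1 : 1 ≤ Lg := LUP_LL 1 le_rfl t
  have hlogN : Real.log N ≤ 2 * Lg := by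
    have h1 : Real.log N ≤ Real.log (2 * (|t| + 3)) := Real.log_le_log hN0 (by linarith)
    rw [Real.log_mul (by norm_num) (by positivity)] at h1
    have h2 : Real.log 2 < 1 := by have := Real.log_two_lt_d9; linarith
    have h3 : Real.log (|t| + 3) = Lg := by rw [hLg]; unfold LL; simp
    linarith
  have hlogN1 : 1 ≤ Real.log N := by
    rw [Real.le_log_iff_exp_le (by linarith)]
    have := Real.exp_one_lt_d9
    linarith
  have hsum := (Fz_summable j s hs1)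
  set T : ℂ := (∑' n : ℕ, Fz j s n) - ∑ n ∈ range N, Fz j s n with hT
  have hTt : Tendsto (fun K => tau j s N K) atTop (nhds T) := by
    have h1 := hsum.hasSum.tendsto_sum_nat.sub_const (∑ n ∈ range N, Fz j s n)
    refine h1.congr' ?_
    filter_upwards [eventually_ge_atTop N] with K hK
    unfold tau
    rw [Finset.sum_Ico_eq_sub _ hK]
  have hTb := hCb s hs1 hs2 ht N hN3 hNge T hTt
  have e1 : Lj (1 : DirichletCharacter ℂ 1) j s = ∑ n ∈ Ico 1 N, Fz j s n + T := by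
    have h1 : ∑' n : ℕ, LSeries.term (fun n => (1 : DirichletCharacter ℂ 1) n * (Real.log n : ℂ) ^ j) s n =
        (∑' n : ℕ, Fz j s n) - Fz j s (0 : ℕ) := by
      have h2 : ∀ n : ℕ, LSeries.term (fun n => (1 : DirichletCharacter ℂ 1) n * (Real.log n : ℂ) ^ j) s n =
          if n = 0 then 0 else Fz j s n := by
        intro n
        by_cases hn : n = 0
        · rw [hn]; simp
        · rw [if_neg hn, LSeries.term_of_ne_zero hn]
          unfold Fz
          rw [Complex.cpow_neg]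
          have h3 : (1 : DirichletCharacter ℂ 1) (n : ZMod 1) = 1 := by
            apply MulChar.one_apply
            rw [Subsingleton.elim (n : ZMod 1) 1]
            exact isUnit_one
          rw [h3]
          push_cast
          ring
      simp_rw [h2]
      rw [hsum.tsum_eq_zero_add, add_comm, add_sub_cancel_right]
      have h4 : Summable (fun n : ℕ => if n = 0 then (0 : ℂ) else Fz j s n) := by
        refine (summable_congr_cofinite ?_).mpr hsum
        filter_upwards [Filter.eventually_cofinite_ne 0] with n hn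
        rw [if_neg hn]
      rw [h4.tsum_eq_zero_add]
      simp
    unfold Lj LSeries
    rw [h1, hT, range_eq_Ico, sum_eq_sum_Ico_succ_bot (show 0 < N by omega)]
    ring
  rw [e1]
  refine (norm_add_le _ _).trans ?_
  have hhead : ‖∑ n ∈ Ico 1 N, Fz j s n‖ ≤ (Real.log N) ^ j * (1 + Real.log N) := by
    refine (norm_sum_le _ _).trans ?_
    calc ∑ n ∈ Ico 1 N, ‖Fz j s n‖ ≤ ∑ n ∈ Ico 1 N, (Real.log N) ^ j * (1 / (n : ℝ)) := by
          apply sum_le_sum
          intro n hn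
          rw [mem_Ico] at hn
          have hn1 : (1 : ℝ) ≤ n := by exact_mod_cast hn.1
          have hl : Real.log n ≤ Real.log N := Real.log_le_log (by linarith) (by exact_mod_cast hn.2.le)
          rw [Fz_eq]
          refine (LUP_normf j s hs1 n hn.1).trans ?_
          rw [div_eq_mul_one_div]
          apply mul_le_mul_of_nonneg_right _ (by positivity)
          exact pow_le_pow_left₀ (Real.log_nonneg hn1) hl j
      _ = (Real.log N) ^ j * ∑ n ∈ Ico 1 N, 1 / (n : ℝ) := by rw [mul_sum]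
      _ ≤ _ := by
          apply mul_le_mul_of_nonneg_left (LUP_harm N (by omega)) (by positivity)
  have hpj : (Real.log N) ^ j ≤ (2 * Lg) ^ j := pow_le_pow_left₀ (by linarith) hlogN j
  calc ‖∑ n ∈ Ico 1 N, Fz j s n‖ + ‖T‖
      ≤ (Real.log N) ^ j * (1 + Real.log N) + C * (Real.log N) ^ j := add_le_add hhead hTb
    _ = (Real.log N) ^ j * (1 + Real.log N + C) := by ring
    _ ≤ (2 * Lg) ^ j * ((3 + C) * Lg) := by
        apply mul_le_mul hpj _ (by positivity) (by positivity)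
        nlinarith
    _ = _ := by rw [mul_pow, pow_succ]; ring

end PNTE
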