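import Pool.Agent.H7.PNTE.Z1
import Pool.Agent.H80.MTA.FJ
import Pool.Agent.H85.MTA.ZUP

/-!
# Prime number theorem with error term, part 2

Lower bound for zeta and upper bounds for the derivatives of its logarithmic derivative,
`1 < Re s ≤ 2`, `|Im s| ≥ 1`.
-/

set_option autoImplicit false

namespace PNTE
open Finset MTA Filter

theorem lj_eq {r : ℕ} (χ : DirichletCharacter ℂ r) (s : ℂ) :
    Lj χ 0 s = LSeries (fun n : ℕ => χ n) s := by
  unfold Lj
  congr 1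
  funext n
  simp

theorem three_four_one {e : ℝ} (he : 0 < e) (t : ℝ) :
    1 ≤ ‖Lj (1 : DirichletCharacter ℂ 1) 0 ((1 + e : ℝ) : ℂ)‖ ^ 3 *
      ‖Lj (1 : DirichletCharacter ℂ 1) 0 (((1 + e : ℝ) : ℂ) + (t : ℂ) * Complex.I)‖ ^ 4 *
      ‖Lj (1 : DirichletCharacter ℂ 1) 0 (((1 + e : ℝ) : ℂ) + ((2 * t : ℝ) : ℂ) * Complex.I)‖ := by
  have h := DirichletCharacter.norm_LSeries_product_ge_one (1 : DirichletCharacter ℂ 1) he t
  rw [norm_mul, norm_mul, norm_pow, norm_pow, one_pow] at h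
  rw [lj_eq, lj_eq, lj_eq]
  have e1 : ((1 + e : ℝ) : ℂ) = 1 + (e : ℂ) := by push_cast; ring
  have e2 : ((1 + e : ℝ) : ℂ) + (t : ℂ) * Complex.I = 1 + (e : ℂ) + Complex.I * t := by
    push_cast; ring
  have e3 : ((1 + e : ℝ) : ℂ) + ((2 * t : ℝ) : ℂ) * Complex.I
      = 1 + (e : ℂ) + 2 * Complex.I * t := by
    push_cast; ring
  rw [e2, e3, e1]
  exact h

theorem LL1 (t : ℝ) : LL 1 t = Real.log (|t| + 3) := by
  unfold LL
  simp

/-- lower bound for zeta -/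
theorem zlow : ∃ c : ℝ, 0 < c ∧ c ≤ 1 ∧ ∀ e t : ℝ, 0 < e → e ≤ 1 → 1 ≤ |t| →
    c * e ^ (3 / 4 : ℝ) / LL 1 t ≤
      ‖Lj (1 : DirichletCharacter ℂ 1) 0 (((1 + e : ℝ) : ℂ) + (t : ℂ) * Complex.I)‖ := by
  obtain ⟨C, hC, hCb⟩ := zup 0
  obtain ⟨C2, hC2, hZ⟩ := ZUP
  refine ⟨1 / (16 * C + 1), by positivity, ?_, fun e t he he1 ht => ?_⟩
  · rw [div_le_one (by positivity)]; linarith
  set c : ℝ := 1 / (16 * C + 1) with hc
  have hc0 : 0 < c := by positivity
  have hc1 : c ≤ 1 := by rw [hc, div_le_one (by positivity)]; linarith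
  set B := ‖Lj (1 : DirichletCharacter ℂ 1) 0 (((1 + e : ℝ) : ℂ) + (t : ℂ) * Complex.I)‖ with hB
  have hB0 : 0 ≤ B := norm_nonneg _
  have h1 := three_four_one he t
  rw [← hB] at h1
  have h2 : ‖Lj (1 : DirichletCharacter ℂ 1) 0 ((1 + e : ℝ) : ℂ)‖ ≤ 2 / e := by
    have := (hZ 1 ((1 + e : ℝ) : ℂ) (by rw [Complex.ofReal_re]; linarith)
      (by rw [Complex.ofReal_re]; linarith)).2
    rw [Complex.ofReal_re] at this
    rwa [show 1 + e - 1 = e by ring] at this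
  have hL1 : 1 ≤ LL 1 t := LUP_LL 1 le_rfl t
  have hL0 : 0 < LL 1 t := by linarith
  have h3 : ‖Lj (1 : DirichletCharacter ℂ 1) 0 (((1 + e : ℝ) : ℂ) + ((2 * t : ℝ) : ℂ) * Complex.I)‖ ≤
      2 * C * LL 1 t := by
    have h4 := hCb (((1 + e : ℝ) : ℂ) + ((2 * t : ℝ) : ℂ) * Complex.I) (by simp; linarith)
      (by simp; linarith) (by simp [abs_mul]; linarith)
    have h5 : (((1 + e : ℝ) : ℂ) + ((2 * t : ℝ) : ℂ) * Complex.I).im = 2 * t := by simp
    rw [h5, zero_add, pow_one] at h4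
    refine h4.trans ?_
    have h6 : LL 1 (2 * t) ≤ 2 * LL 1 t := by
      rw [LL1, LL1]
      have h7 : Real.log (|2 * t| + 3) ≤ Real.log (2 * (|t| + 3)) := by
        apply Real.log_le_log (by positivity)
        rw [abs_mul, abs_of_pos (by norm_num : (0 : ℝ) < 2)]
        linarith
      rw [Real.log_mul (by norm_num) (by positivity)] at h7
      have h8 : Real.log 2 < 1 := by have := Real.log_two_lt_d9; linarith
      have h9 := hL1
      rw [LL1] at h9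
      linarith
    calc C * LL 1 (2 * t) ≤ C * (2 * LL 1 t) := mul_le_mul_of_nonneg_left h6 hC.le
      _ = _ := by ring
  have h10 : 1 ≤ (2 / e) ^ 3 * B ^ 4 * (2 * C * LL 1 t) := by
    refine h1.trans ?_
    apply mul_le_mul _ h3 (norm_nonneg _) (by positivity)
    apply mul_le_mul_of_nonneg_right _ (by positivity)
    exact pow_le_pow_left₀ (norm_nonneg _) h2 3
  have h11 : e ^ 3 ≤ 16 * C * LL 1 t * B ^ 4 := by
    have : (2 / e) ^ 3 * B ^ 4 * (2 * C * LL 1 t) = 16 * C * LL 1 t * B ^ 4 / e ^ 3 := by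
      field_simp
      ring
    rw [this, le_div_iff₀ (by positivity), one_mul] at h10
    exact h10
  have h12 : (c * e ^ (3 / 4 : ℝ) / LL 1 t) ^ 4 ≤ B ^ 4 := by
    have e1 : (e ^ (3 / 4 : ℝ)) ^ 4 = e ^ 3 := by
      rw [← Real.rpow_natCast, ← Real.rpow_mul he.le]
      norm_num
    rw [div_pow, mul_pow, e1, div_le_iff₀ (by positivity)]
    have h13 : c ^ 4 * (16 * C) ≤ 1 := by
      calc c ^ 4 * (16 * C) ≤ c ^ 1 * (16 * C) := by
            apply mul_le_mul_of_nonneg_right _ (by positivity)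
            exact pow_le_pow_of_le_one hc0.le hc1 (by norm_num)
        _ ≤ 1 := by
            rw [pow_one, hc, div_mul_eq_mul_div, one_mul, div_le_one (by positivity)]
            linarith
    calc c ^ 4 * e ^ 3 ≤ c ^ 4 * (16 * C * LL 1 t * B ^ 4) :=
          mul_le_mul_of_nonneg_left h11 (by positivity)
      _ = (c ^ 4 * (16 * C)) * (LL 1 t * B ^ 4) := by ring
      _ ≤ 1 * (LL 1 t * B ^ 4) := mul_le_mul_of_nonneg_right h13 (by positivity)
      _ ≤ B ^ 4 * (LL 1 t) ^ 4 := by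
          rw [one_mul, mul_comm]
          apply mul_le_mul_of_nonneg_left _ (by positivity)
          calc LL 1 t = (LL 1 t) ^ 1 := (pow_one _).symm
            _ ≤ (LL 1 t) ^ 4 := pow_le_pow_right₀ hL1 (by norm_num)
  exact le_of_pow_le_pow_left₀ (by norm_num) hB0 h12

open FJAux in
theorem fjz (k : ℕ) : ∃ C : ℝ, 0 < C ∧ ∀ (s : ℂ) (dl : ℝ), 1 < s.re → s.re ≤ 2 → 1 ≤ |s.im| →
    0 < dl → dl ≤ 1 → dl ≤ ‖Lj (1 : DirichletCharacter ℂ 1) 0 s‖ →
    ‖Fj (1 : DirichletCharacter ℂ 1) k s‖ ≤ C * ((LL 1 s.im) ^ 2 / dl) ^ (k + 1) := by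
  induction k using Nat.strong_induction_on with
  | _ k ih =>
    choose C hC hLb using zup
    set χ : DirichletCharacter ℂ 1 := 1 with hχ
    have ih' : ∀ j : ℕ, ∃ D : ℝ, 0 < D ∧ (j < k →
        ∀ (s : ℂ) (dl : ℝ), 1 < s.re → s.re ≤ 2 → 1 ≤ |s.im| → 0 < dl → dl ≤ 1 →
        dl ≤ ‖Lj χ 0 s‖ → ‖Fj χ j s‖ ≤ D * ((LL 1 s.im) ^ 2 / dl) ^ (j + 1)) := by
      intro j
      by_cases hj : j < k
      · obtain ⟨D, h1, h2⟩ := ih j hj
        exact ⟨D, h1, fun _ => h2⟩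
      · exact ⟨1, one_pos, fun h => absurd h hj⟩
    choose D hD hDb using ih'
    refine ⟨C (k + 1) + ∑ j ∈ range k, (k.choose j : ℝ) * (D j * C (k - j)), ?_, ?_⟩
    · have : 0 ≤ ∑ j ∈ range k, (k.choose j : ℝ) * (D j * C (k - j)) :=
        Finset.sum_nonneg fun j _ => mul_nonneg (by positivity)
          (mul_nonneg (hD j).le (hC _).le)
      linarith [hC (k + 1)]
    · intro s dl hs1 hs2 hst hdl0 hdl1 hdl
      have hlb := leibS χ k hs1
      rw [Finset.sum_range_succ, Nat.choose_self, Nat.cast_one, one_mul, Nat.sub_self] at hlb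
      have hL0 : Lj χ 0 s ≠ 0 := by
        intro h
        rw [h, norm_zero] at hdl
        linarith
      set Λ := LL 1 s.im with hΛ
      have hΛ1 : 1 ≤ Λ := LL_ge s.im
      have e1 : Fj χ k s * Lj χ 0 s = Lj χ (k + 1) s -
          ∑ j ∈ range k, ((k.choose j : ℕ) : ℂ) * (Fj χ j s * Lj χ (k - j) s) := by
        rw [hlb]
        ring
      have e2 : ‖Fj χ k s‖ * ‖Lj χ 0 s‖ ≤ ‖Lj χ (k + 1) s‖ +
          ∑ j ∈ range k, (k.choose j : ℝ) * (‖Fj χ j s‖ * ‖Lj χ (k - j) s‖) := by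
        rw [← norm_mul, e1]
        refine (norm_sub_le _ _).trans (add_le_add le_rfl ?_)
        refine norm_sum_le_of_le _ fun j _ => ?_
        rw [norm_mul, norm_mul, Complex.norm_natCast]
      have hb : ∀ u v : ℕ, u ≤ 2 * (k + 1) → v + 1 ≤ k + 1 →
          Λ ^ u / dl ^ v ≤ dl * (Λ ^ 2 / dl) ^ (k + 1) := by
        intro u v hu hv
        have h1 : Λ ^ u ≤ Λ ^ (2 * (k + 1)) := pow_le_pow_right₀ hΛ1 hu
        have h2 : dl ^ k ≤ dl ^ v := pow_le_pow_of_le_one hdl0.le hdl1 (by omega)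
        have h3 : dl * (Λ ^ 2 / dl) ^ (k + 1) = Λ ^ (2 * (k + 1)) / dl ^ k := by
          rw [div_pow, ← pow_mul, pow_succ dl k]
          field_simp
        rw [h3]
        exact div_le_div₀ (by positivity) h1 (by positivity) h2
      have b1 : ‖Lj χ (k + 1) s‖ ≤ C (k + 1) * (dl * (Λ ^ 2 / dl) ^ (k + 1)) := by
        refine (hLb (k + 1) s hs1 hs2 hst).trans ?_
        refine mul_le_mul_of_nonneg_left ?_ (hC _).le
        have := hb (k + 1 + 1) 0 (by omega) (by omega)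
        rwa [pow_zero, div_one] at this
      have b2 : ∀ j ∈ range k, (k.choose j : ℝ) * (‖Fj χ j s‖ * ‖Lj χ (k - j) s‖) ≤
          (k.choose j : ℝ) * (D j * C (k - j)) * (dl * (Λ ^ 2 / dl) ^ (k + 1)) := by
        intro j hj
        rw [mem_range] at hj
        rw [mul_assoc]
        refine mul_le_mul_of_nonneg_left ?_ (by positivity)
        have h1 := hDb j hj s dl hs1 hs2 hst hdl0 hdl1 hdl
        have h2 := hLb (k - j) s hs1 hs2 hst
        rw [← hΛ] at h1 h2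
        calc ‖Fj χ j s‖ * ‖Lj χ (k - j) s‖ ≤
            (D j * (Λ ^ 2 / dl) ^ (j + 1)) * (C (k - j) * Λ ^ (k - j + 1)) :=
              mul_le_mul h1 h2 (norm_nonneg _)
                (mul_nonneg (hD j).le (by positivity))
          _ = D j * C (k - j) * (Λ ^ (2 * (j + 1) + (k - j + 1)) / dl ^ (j + 1)) := by
              rw [div_pow, ← pow_mul, pow_add]
              ring
          _ ≤ D j * C (k - j) * (dl * (Λ ^ 2 / dl) ^ (k + 1)) := by
              refine mul_le_mul_of_nonneg_left (hb _ _ (by omega) (by omega))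
                (mul_nonneg (hD j).le (hC _).le)
      have b3 : ‖Fj χ k s‖ * ‖Lj χ 0 s‖ ≤
          (C (k + 1) + ∑ j ∈ range k, (k.choose j : ℝ) * (D j * C (k - j))) *
            (dl * (Λ ^ 2 / dl) ^ (k + 1)) := by
        refine e2.trans ?_
        rw [add_mul, Finset.sum_mul]
        exact add_le_add b1 (Finset.sum_le_sum b2)
      have b4 : ‖Fj χ k s‖ * dl ≤ ‖Fj χ k s‖ * ‖Lj χ 0 s‖ :=
        mul_le_mul_of_nonneg_left hdl (norm_nonneg _)
      have b5 := b4.trans b3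
      have e3 : (C (k + 1) + ∑ j ∈ range k, (k.choose j : ℝ) * (D j * C (k - j))) *
          (dl * (Λ ^ 2 / dl) ^ (k + 1)) = ((C (k + 1) + ∑ j ∈ range k, (k.choose j : ℝ) *
            (D j * C (k - j))) * (Λ ^ 2 / dl) ^ (k + 1)) * dl := by ring
      rw [e3] at b5
      exact le_of_mul_le_mul_right b5 hdl0


/-- bound for the derivatives of the logarithmic derivative, away from the pole -/
theorem ffar (k : ℕ) : ∃ C : ℝ, 0 < C ∧ ∀ e t : ℝ, 0 < e → e ≤ 1 → 1 ≤ |t| →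
    ‖Fj (1 : DirichletCharacter ℂ 1) k (((1 + e : ℝ) : ℂ) + (t : ℂ) * Complex.I) -
      Lj (1 : DirichletCharacter ℂ 1) k (((1 + e : ℝ) : ℂ) + (t : ℂ) * Complex.I)‖ ≤
      C * (e ^ (-(3 / 4) : ℝ) * (LL 1 t) ^ 3) ^ (k + 1) := by
  obtain ⟨C1, hC1, h1⟩ := fjz k
  obtain ⟨C2, hC2, h2⟩ := zup k
  obtain ⟨c, hc, hc1, h3⟩ := zlow
  refine ⟨C1 * (1 / c) ^ (k + 1) + C2, by positivity, fun e t he he1 ht => ?_⟩
  set s : ℂ := ((1 + e : ℝ) : ℂ) + (t : ℂ) * Complex.I with hs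
  have hre : s.re = 1 + e := by simp [hs]
  have him : s.im = t := by simp [hs]
  have hL1 : 1 ≤ LL 1 t := LUP_LL 1 le_rfl t
  have hL0 : 0 < LL 1 t := by linarith
  set dl : ℝ := c * e ^ (3 / 4 : ℝ) / LL 1 t with hdl
  have he34 : 0 < e ^ (3 / 4 : ℝ) := by positivity
  have he34' : e ^ (3 / 4 : ℝ) ≤ 1 := Real.rpow_le_one he.le he1 (by norm_num)
  have hdl0 : 0 < dl := by positivity
  have hdl1 : dl ≤ 1 := by
    rw [hdl, div_le_one hL0]
    nlinarith
  have h4 := h1 s dl (by rw [hre]; linarith) (by rw [hre]; linarith) (by rw [him]; exact ht) hdl0 hdl1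
    (h3 e t he he1 ht)
  have h5 := h2 s (by rw [hre]; linarith) (by rw [hre]; linarith) (by rw [him]; exact ht)
  rw [him] at h4 h5
  have he1' : 1 ≤ e ^ (-(3 / 4) : ℝ) := by
    rw [Real.rpow_neg he.le]
    exact (one_le_inv₀ he34).mpr he34'
  have e1 : (LL 1 t) ^ 2 / dl = (1 / c) * (e ^ (-(3 / 4) : ℝ) * (LL 1 t) ^ 3) := by
    rw [hdl, Real.rpow_neg he.le]
    field_simp
  have h6 : (LL 1 t) ^ (k + 1) ≤ (e ^ (-(3 / 4) : ℝ) * (LL 1 t) ^ 3) ^ (k + 1) := by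
    apply pow_le_pow_left₀ hL0.le
    have h7 : LL 1 t ≤ (LL 1 t) ^ 3 := by
      calc LL 1 t = (LL 1 t) ^ 1 := (pow_one _).symm
        _ ≤ _ := pow_le_pow_right₀ hL1 (by norm_num)
    have h8 : 0 < (LL 1 t) ^ 3 := by positivity
    nlinarith
  refine (norm_sub_le _ _).trans ?_
  calc _ ≤ C1 * ((LL 1 t) ^ 2 / dl) ^ (k + 1) + C2 * (LL 1 t) ^ (k + 1) := add_le_add h4 h5
    _ ≤ C1 * ((LL 1 t) ^ 2 / dl) ^ (k + 1) +
        C2 * (e ^ (-(3 / 4) : ℝ) * (LL 1 t) ^ 3) ^ (k + 1) := by gcongr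
    _ = _ := by rw [e1, mul_pow (1 / c)]; ring

end PNTE
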