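import Pool.Agent.H7.PNTE.Z2

/-!
# Prime number theorem with error term, part 3

Boundedness of the derivatives of `-ζ'/ζ - ζ` near `s = 1`.
-/

set_option autoImplicit false

namespace PNTE
open Finset MTA Filter
open scoped Topology

/-- `(s-1) ζ(s)` -/
noncomputable def Zf : ℂ → ℂ := Function.update (fun s => (s - 1) * riemannZeta s) 1 1

theorem Zf_of_ne {s : ℂ} (hs : s ≠ 1) : Zf s = (s - 1) * riemannZeta s := by
  unfold Zf
  rw [Function.update_of_ne hs]

theorem Zf_one : Zf 1 = 1 := by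
  unfold Zf
  rw [Function.update_self]

theorem Zf_diff : Differentiable ℂ Zf := by
  intro s
  by_cases hs : s = 1
  · rw [hs]
    refine (Complex.analyticAt_of_differentiable_on_punctured_nhds_of_continuousAt ?_ ?_).differentiableAt
    · filter_upwards [self_mem_nhdsWithin] with t ht
      have ht' : t ≠ 1 := ht
      have h1 : DifferentiableAt ℂ (fun s => (s - 1) * riemannZeta s) t :=
        (differentiableAt_id.sub_const _).mul (differentiableAt_riemannZeta ht')
      refine h1.congr_of_eventuallyEq ?_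
      filter_upwards [isOpen_ne.mem_nhds ht'] with u hu
      exact Zf_of_ne hu
    · rw [continuousAt_iff_punctured_nhds, Zf_one]
      refine riemannZeta_residue_one.congr' ?_
      filter_upwards [self_mem_nhdsWithin] with t ht
      exact (Zf_of_ne ht).symm
  · have h1 : DifferentiableAt ℂ (fun s => (s - 1) * riemannZeta s) s :=
      (differentiableAt_id.sub_const _).mul (differentiableAt_riemannZeta hs)
    refine h1.congr_of_eventuallyEq ?_
    filter_upwards [isOpen_ne.mem_nhds hs] with u hu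
    exact Zf_of_ne hu

theorem Zf_ne {s : ℂ} (hs : 1 ≤ s.re) : Zf s ≠ 0 := by
  by_cases h : s = 1
  · rw [h, Zf_one]; exact one_ne_zero
  · rw [Zf_of_ne h]
    exact mul_ne_zero (sub_ne_zero.mpr h) (riemannZeta_ne_zero_of_one_le_re hs)

/-- the analytic continuation of `-ζ'/ζ - ζ` -/
noncomputable def Psi (s : ℂ) : ℂ := -(deriv Zf s / Zf s) - dslope Zf 1 s

theorem Psi_analytic {s : ℂ} (hs : 1 ≤ s.re) : AnalyticAt ℂ Psi s := by
  have h1 : AnalyticAt ℂ Zf s := Zf_diff.analyticAt s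
  have h2 : AnalyticAt ℂ (deriv Zf) s := h1.deriv
  have h3 : Differentiable ℂ (dslope Zf 1) := by
    rw [← differentiableOn_univ]
    exact (Complex.differentiableOn_dslope univ_mem).mpr Zf_diff.differentiableOn
  exact ((h2.div h1 (Zf_ne hs)).neg).sub (h3.analyticAt s)

/-- the coefficients -/
noncomputable def f1 : ℕ → ℂ := fun n => (ArithmeticFunction.vonMangoldt n : ℂ) - 1

theorem sum1 {s : ℂ} (hs : 1 < s.re) : LSeriesSummable (fun _ : ℕ => (1 : ℂ)) s := by
  have := (LSeriesSummable_one_iff (s := s)).mpr hs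
  exact this

theorem f1_summable {s : ℂ} (hs : 1 < s.re) : LSeriesSummable f1 s :=
  (ArithmeticFunction.LSeriesSummable_vonMangoldt hs).sub (sum1 hs)

theorem f1_absc {s : ℂ} (hs : 1 < s.re) : LSeries.abscissaOfAbsConv f1 < s.re := by
  set x : ℝ := (1 + s.re) / 2 with hx
  have h1 : LSeriesSummable f1 (x : ℂ) := f1_summable (by rw [Complex.ofReal_re, hx]; linarith)
  have h2 := h1.abscissaOfAbsConv_le
  rw [Complex.ofReal_re] at h2
  refine lt_of_le_of_lt h2 ?_
  rw [EReal.coe_lt_coe_iff, hx]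
  linarith

theorem LSeries_f1 {s : ℂ} (hs : 1 < s.re) : LSeries f1 s = Psi s := by
  have h1 : LSeries f1 s = LSeries (fun n : ℕ => (ArithmeticFunction.vonMangoldt n : ℂ)) s - LSeries (fun _ : ℕ => (1 : ℂ)) s :=
    LSeries_sub (ArithmeticFunction.LSeriesSummable_vonMangoldt hs) (sum1 hs)
  have h2 : LSeries (fun _ : ℕ => (1 : ℂ)) s = riemannZeta s := LSeries_one_eq_riemannZeta hs
  have hs1 : s ≠ 1 := by
    rintro rfl
    simp at hs
  have hd : s - 1 ≠ 0 := sub_ne_zero.mpr hs1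
  have hz : riemannZeta s ≠ 0 := riemannZeta_ne_zero_of_one_lt_re hs
  have h3 : deriv Zf s = riemannZeta s + (s - 1) * deriv riemannZeta s := by
    have e : Zf =ᶠ[𝓝 s] fun s => (s - 1) * riemannZeta s := by
      filter_upwards [isOpen_ne.mem_nhds hs1] with u hu
      exact Zf_of_ne hu
    rw [e.deriv_eq]
    have h4 : HasDerivAt (fun s : ℂ => s - 1) 1 s := (hasDerivAt_id s).sub_const 1
    have h5 := h4.mul (differentiableAt_riemannZeta hs1).hasDerivAt
    have h6 := h5.deriv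
    rw [one_mul] at h6
    exact h6
  rw [h1, h2, ArithmeticFunction.LSeries_vonMangoldt_eq_deriv_riemannZeta_div hs]
  unfold Psi
  rw [dslope_of_ne _ hs1, slope_def_field, h3, Zf_one, Zf_of_ne hs1]
  field_simp
  ring

theorem logMul_iter (f : ℕ → ℂ) (k n : ℕ) : (LSeries.logMul^[k] f) n = (Complex.log n) ^ k * f n := by
  induction k with
  | zero => simp
  | succ k ih =>
    rw [Function.iterate_succ_apply', LSeries.logMul, ih, pow_succ]
    ring

theorem D_eq (k : ℕ) {s : ℂ} (hs : 1 < s.re) :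
    Fj (1 : DirichletCharacter ℂ 1) k s - Lj (1 : DirichletCharacter ℂ 1) k s =
      LSeries (LSeries.logMul^[k] f1) s := by
  have h1 : LSeries (LSeries.logMul^[k] f1) s = LSeries (FJAux.vf (1 : DirichletCharacter ℂ 1) k -
      FJAux.lf (1 : DirichletCharacter ℂ 1) k) s := by
    refine LSeries_congr (fun {n} hn => ?_) s
    rw [logMul_iter]
    unfold FJAux.vf FJAux.lf f1
    have h3 : (1 : DirichletCharacter ℂ 1) (n : ZMod 1) = 1 := by
      apply MulChar.one_apply
      rw [Subsingleton.elim (n : ZMod 1) 1]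
      exact isUnit_one
    simp only [Pi.sub_apply]
    rw [h3, Complex.natCast_log]
    ring
  rw [h1, LSeries_sub (FJAux.vf_summ _ k hs) (FJAux.lf_summ _ k hs)]
  rfl

theorem D_eq2 (k : ℕ) {s : ℂ} (hs : 1 < s.re) :
    LSeries (LSeries.logMul^[k] f1) s = (-1) ^ k * (deriv^[k] Psi) s := by
  have h1 := LSeries_iteratedDeriv k (f1_absc hs)
  have h2 : Set.EqOn (iteratedDeriv k (LSeries f1)) (iteratedDeriv k Psi) {z : ℂ | 1 < z.re} := by
    refine Set.EqOn.iteratedDeriv_of_isOpen (fun z hz => LSeries_f1 hz) ?_ k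
    exact isOpen_lt continuous_const Complex.continuous_re
  have h3 := h2 (show s ∈ {z : ℂ | 1 < z.re} from hs)
  rw [← iteratedDeriv_eq_iterate, ← h3, h1, ← mul_assoc, ← mul_pow]
  norm_num

/-- the derivatives are bounded near the pole -/
theorem fnear (k : ℕ) : ∃ C : ℝ, 0 < C ∧ ∀ s : ℂ, 1 < s.re → s.re ≤ 2 → |s.im| ≤ 1 →
    ‖Fj (1 : DirichletCharacter ℂ 1) k s - Lj (1 : DirichletCharacter ℂ 1) k s‖ ≤ C := by
  set K : Set ℂ := Set.Icc (1 : ℝ) 2 ×ℂ Set.Icc (-1 : ℝ) 1 with hK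
  have hKc : IsCompact K := isCompact_Icc.reProdIm isCompact_Icc
  have hc : ContinuousOn (deriv^[k] Psi) K := by
    intro s hs
    rw [hK, Complex.mem_reProdIm] at hs
    exact ((Psi_analytic hs.1.1).iterated_deriv k).continuousAt.continuousWithinAt
  obtain ⟨C, hC⟩ := hKc.exists_bound_of_continuousOn hc
  refine ⟨max C 1, lt_max_of_lt_right one_pos, fun s h1 h2 h3 => ?_⟩
  rw [D_eq k h1, D_eq2 k h1, norm_mul, norm_pow, norm_neg, norm_one, one_pow, one_mul]
  refine (hC s ?_).trans (le_max_left _ _)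
  rw [hK, Complex.mem_reProdIm]
  exact ⟨⟨h1.le, h2⟩, abs_le.mp h3⟩

/-- the main bound on the line `Re s = 1 + e` -/
theorem fall (k : ℕ) : ∃ C : ℝ, 0 < C ∧ ∀ e t : ℝ, 0 < e → e ≤ 1 →
    ‖LSeries (LSeries.logMul^[k] f1) (((1 + e : ℝ) : ℂ) + (t : ℂ) * Complex.I)‖ ≤
      C * (e ^ (-(3 / 4) : ℝ) * (Real.log (|t| + 3)) ^ 3) ^ (k + 1) := by
  obtain ⟨C1, hC1, h1⟩ := ffar k
  obtain ⟨C2, hC2, h2⟩ := fnear k
  refine ⟨C1 + C2, by positivity, fun e t he he1 => ?_⟩
  set s : ℂ := ((1 + e : ℝ) : ℂ) + (t : ℂ) * Complex.I with hs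
  have hre : s.re = 1 + e := by simp [hs]
  have him : s.im = t := by simp [hs]
  rw [← D_eq k (by rw [hre]; linarith), ← LL1]
  have hL1 : 1 ≤ LL 1 t := LUP_LL 1 le_rfl t
  have he34 : 0 < e ^ (3 / 4 : ℝ) := by positivity
  have he34' : e ^ (3 / 4 : ℝ) ≤ 1 := Real.rpow_le_one he.le he1 (by norm_num)
  have he1' : 1 ≤ e ^ (-(3 / 4) : ℝ) := by
    rw [Real.rpow_neg he.le]
    exact (one_le_inv₀ he34).mpr he34'
  have hX : 1 ≤ (e ^ (-(3 / 4) : ℝ) * (LL 1 t) ^ 3) ^ (k + 1) := by
    apply one_le_pow₀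
    exact one_le_mul_of_one_le_of_one_le he1' (one_le_pow₀ hL1)
  rcases le_total 1 |t| with ht | ht
  · refine (h1 e t he he1 ht).trans ?_
    nlinarith
  · refine (h2 s (by rw [hre]; linarith) (by rw [hre]; linarith) (by rw [him]; exact ht)).trans ?_
    nlinarith

end PNTE
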