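import Pool.Agent.H7.PNTE.Z3
import Pool.Agent.H92.MTA.FOUR
import Pool.Agent.H28.MTA.SW

/-!
# Prime number theorem with error term, part 4

Smoothed sums over short intervals.
-/

set_option autoImplicit false

namespace PNTE
open Finset MTA Filter MeasureTheory

theorem rp_term (f : ℕ → ℂ) (σ u : ℝ) {n : ℕ} (hn : n ≠ 0) :
    LSeries.term f ((σ : ℂ) - 2 * Real.pi * u * Complex.I) n =
      f n * (Real.exp (-(σ * Real.log n)) : ℂ) *
        Complex.exp (2 * Real.pi * Complex.I * u * Real.log n) := by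
  have hn0 : (n : ℂ) ≠ 0 := by exact_mod_cast hn
  rw [LSeries.term_of_ne_zero hn, Complex.cpow_def_of_ne_zero hn0, ← Complex.natCast_log,
    div_eq_mul_inv, ← Complex.exp_neg, mul_assoc (f n)]
  congr 1
  rw [Complex.ofReal_exp, ← Complex.exp_add]
  congr 1
  push_cast
  ring

theorem rp_repr (f : ℕ → ℂ) (σ lam : ℝ) (hf : LSeriesSummable f σ)
    (g : ℝ → ℂ) (hgi : Integrable g) (Φ : ℝ → ℝ)
    (hΦ : ∀ w, ((Φ w : ℝ) : ℂ) = ∫ u, g u * Complex.exp (2 * Real.pi * Complex.I * u * w))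
    (N : ℕ) (hN : ∀ n : ℕ, N < n → Φ (Real.log n - lam) = 0) :
    ∑ n ∈ Icc 1 N, f n * (Real.exp (-(σ * Real.log n)) : ℂ) *
      ((Φ (Real.log n - lam) : ℝ) : ℂ) =
    ∫ u, g u * Complex.exp (-(2 * Real.pi * Complex.I * u * lam)) *
      LSeries f ((σ : ℂ) - 2 * Real.pi * u * Complex.I) := by
  set F : ℕ → ℝ → ℂ := fun n u => g u * Complex.exp (-(2 * Real.pi * Complex.I * u * lam)) *
    LSeries.term f ((σ : ℂ) - 2 * Real.pi * u * Complex.I) n with hFdef
  have hexp : ∀ (u v : ℝ), ‖Complex.exp (2 * Real.pi * Complex.I * u * v)‖ = 1 := by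
    intro u v
    rw [Complex.norm_exp]
    simp
  have hexp' : ∀ (u v : ℝ), ‖Complex.exp (-(2 * Real.pi * Complex.I * u * v))‖ = 1 := by
    intro u v
    rw [Complex.norm_exp]
    simp
  have hF0 : ∀ u, F 0 u = 0 := by
    intro u
    rw [hFdef]
    simp only [LSeries.term_zero, mul_zero]
  have hFn : ∀ n : ℕ, n ≠ 0 → ∀ u, F n u = f n * (Real.exp (-(σ * Real.log n)) : ℂ) *
      (g u * Complex.exp (2 * Real.pi * Complex.I * u * ((Real.log n - lam : ℝ) : ℂ))) := by
    intro n hn u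
    rw [hFdef]
    simp only
    rw [rp_term f σ u hn]
    have : Complex.exp (2 * Real.pi * Complex.I * u * ((Real.log n - lam : ℝ) : ℂ)) =
        Complex.exp (2 * Real.pi * Complex.I * u * Real.log n) *
          Complex.exp (-(2 * Real.pi * Complex.I * u * lam)) := by
      rw [← Complex.exp_add]
      congr 1
      push_cast
      ring
    rw [this]
    ring
  have hgint : ∀ v : ℝ, Integrable (fun u : ℝ => g u *
      Complex.exp (2 * Real.pi * Complex.I * u * (v : ℂ))) := by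
    intro v
    refine hgi.norm.mono' ?_ (Filter.Eventually.of_forall fun u => ?_)
    · refine hgi.aestronglyMeasurable.mul ?_
      exact (by fun_prop : Continuous (fun u : ℝ =>
        Complex.exp (2 * Real.pi * Complex.I * u * (v : ℂ)))).aestronglyMeasurable
    · rw [norm_mul, hexp, mul_one]
  have hFint : ∀ n, Integrable (F n) := by
    intro n
    rcases Nat.eq_zero_or_pos n with h | h
    · have : F n = fun _ => 0 := by
        funext u
        rw [h]
        exact hF0 u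
      rw [this]
      exact integrable_zero _ _ _
    · have : F n = fun u => f n * (Real.exp (-(σ * Real.log n)) : ℂ) *
        (g u * Complex.exp (2 * Real.pi * Complex.I * u * ((Real.log n - lam : ℝ) : ℂ))) := by
        funext u
        exact hFn n (by omega) u
      rw [this]
      exact (hgint _).const_mul _
  have hnorm : ∀ n, (∫ u, ‖F n u‖) = ‖LSeries.term f (σ : ℂ) n‖ * ∫ u, ‖g u‖ := by
    intro n
    rw [← integral_const_mul]
    refine integral_congr_ae (Filter.Eventually.of_forall fun u => ?_)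
    rcases Nat.eq_zero_or_pos n with h | h
    · simp only [h, hF0, LSeries.term_zero, norm_zero, zero_mul]
    · simp only
      rw [hFn n (by omega) u, norm_mul, norm_mul, norm_mul, hexp, mul_one]
      have h2 := rp_term f σ 0 (n := n) (by omega)
      simp only [Complex.ofReal_zero, mul_zero, zero_mul, sub_zero, Complex.exp_zero,
        mul_one] at h2
      rw [h2, norm_mul]
  have hsum : Summable (fun n => ∫ u, ‖F n u‖) := by
    simp only [hnorm]
    refine Summable.mul_right _ ?_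
    exact (hf).norm
  have hHS := hasSum_integral_of_summable_integral_norm hFint hsum
  have hval : ∀ n : ℕ, (∫ u, F n u) = if n ∈ Icc 1 N then
      f n * (Real.exp (-(σ * Real.log n)) : ℂ) * ((Φ (Real.log n - lam) : ℝ) : ℂ)
      else 0 := by
    intro n
    rcases Nat.eq_zero_or_pos n with h | h
    · rw [if_neg (by simp [h])]
      simp only [h, hF0, integral_zero]
    · have h1 : (∫ u, F n u) = f n * (Real.exp (-(σ * Real.log n)) : ℂ) *
          ((Φ (Real.log n - lam) : ℝ) : ℂ) := by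
        rw [hΦ, ← integral_const_mul]
        exact integral_congr_ae (Filter.Eventually.of_forall fun u => hFn n (by omega) u)
      rw [h1]
      split_ifs with h2
      · rfl
      · rw [Finset.mem_Icc, not_and_or] at h2
        rw [hN n (by omega)]
        simp
  have hsum2 : HasSum (fun n => ∫ u, F n u)
      (∑ n ∈ Icc 1 N, f n * (Real.exp (-(σ * Real.log n)) : ℂ) *
        ((Φ (Real.log n - lam) : ℝ) : ℂ)) := by
    have h1 : ∑ n ∈ Icc 1 N, f n * (Real.exp (-(σ * Real.log n)) : ℂ) *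
        ((Φ (Real.log n - lam) : ℝ) : ℂ) = ∑ n ∈ Icc 1 N, ∫ u, F n u := by
      refine Finset.sum_congr rfl (fun n hn => ?_)
      rw [hval, if_pos hn]
    rw [h1]
    refine hasSum_sum_of_ne_finset_zero (fun n hn => ?_)
    rw [hval, if_neg hn]
  have heq := hsum2.unique hHS
  rw [heq]
  refine integral_congr_ae (Filter.Eventually.of_forall fun u => ?_)
  show ∑' n, F n u = _
  rw [hFdef]
  simp only
  rw [tsum_mul_left]
  rfl


/-- the kernel -/
noncomputable def ker (v : ℝ) : ℝ := Real.smoothTransition (v + 1) - Real.smoothTransition v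

theorem ker_nonneg (v : ℝ) : 0 ≤ ker v := by
  unfold ker
  have := Real.smoothTransition.monotone (show v ≤ v + 1 by linarith)
  linarith

theorem ker_le (v : ℝ) : ker v ≤ 1 := by
  unfold ker
  have h1 := Real.smoothTransition.le_one (v + 1)
  have h2 := Real.smoothTransition.nonneg v
  linarith

theorem ker_zero {v : ℝ} (h : 1 ≤ |v|) : ker v = 0 := by
  unfold ker
  rcases le_abs.mp h with h1 | h1
  · rw [Real.smoothTransition.one_of_one_le (by linarith), Real.smoothTransition.one_of_one_le h1]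
    ring
  · rw [Real.smoothTransition.zero_of_nonpos (by linarith),
      Real.smoothTransition.zero_of_nonpos (by linarith)]
    ring

theorem ker_fourier : ∃ (g : ℝ → ℂ) (C : ℝ), 0 < C ∧ Continuous g ∧ (∀ u, ‖g u‖ ≤ C / (1 + u ^ 2)) ∧
    ∀ w : ℝ, ((ker w : ℝ) : ℂ) = ∫ u, g u * Complex.exp (2 * Real.pi * Complex.I * u * w) := by
  have hT : ContDiff ℝ 2 Real.smoothTransition :=
    contDiff_infty.1 (Real.smoothTransition.contDiff (n := ⊤)) 2
  have hk : ContDiff ℝ 2 ker := by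
    unfold ker
    exact (hT.comp (contDiff_id.add contDiff_const)).sub hT
  have hc : ContDiff ℝ 2 (fun v => ((ker v : ℝ) : ℂ)) := Complex.ofRealCLM.contDiff.comp hk
  have hs0 : HasCompactSupport ker := by
    refine HasCompactSupport.intro (K := Set.Icc (-1) 1) isCompact_Icc fun v hv => ?_
    apply ker_zero
    by_contra h
    push Not at h
    rw [abs_lt] at h
    exact hv ⟨h.1.le, h.2.le⟩
  have hs : HasCompactSupport (fun v => ((ker v : ℝ) : ℂ)) :=
    hs0.comp_left (g := fun x : ℝ => (x : ℂ)) (by simp)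
  obtain ⟨g, h1, h2, h3⟩ := FOUR (fun v => ((ker v : ℝ) : ℂ)) hc hs
  refine ⟨g, (∫ v, ‖((ker v : ℝ) : ℂ)‖) +
    (∫ v, ‖iteratedDeriv 2 (fun v => ((ker v : ℝ) : ℂ)) v‖) + 1, ?_, h1, ?_, h3⟩
  · have a1 : 0 ≤ ∫ v, ‖((ker v : ℝ) : ℂ)‖ :=
      MeasureTheory.integral_nonneg (fun v => norm_nonneg _)
    have a2 : 0 ≤ ∫ v, ‖iteratedDeriv 2 (fun v => ((ker v : ℝ) : ℂ)) v‖ :=
      MeasureTheory.integral_nonneg (fun v => norm_nonneg _)
    linarith
  · intro u
    refine (h2 u).trans ?_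
    have hu : 0 < 1 + u ^ 2 := by positivity
    exact div_le_div_of_nonneg_right (by linarith) hu.le

/-- the scaled kernel -/
theorem ker_scaled : ∃ C : ℝ, 0 < C ∧ ∀ dl : ℝ, 0 < dl → dl ≤ 1 → ∃ g : ℝ → ℂ, Continuous g ∧
    (∀ u, ‖g u‖ ≤ (C / dl) / (1 + u ^ 2)) ∧
    ∀ w : ℝ, ((ker (w / dl) : ℝ) : ℂ) = ∫ u, g u * Complex.exp (2 * Real.pi * Complex.I * u * w) := by
  obtain ⟨g, C, hC, hg, hgb, hgr⟩ := ker_fourier
  refine ⟨C, hC, fun dl hd hd1 => ⟨fun u => (dl : ℂ) * g (dl * u), ?_, ?_, ?_⟩⟩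
  · exact continuous_const.mul (hg.comp (continuous_const.mul continuous_id))
  · intro u
    rw [norm_mul, Complex.norm_real, Real.norm_of_nonneg hd.le]
    have h1 := hgb (dl * u)
    have h2 : dl ^ 2 * (1 + u ^ 2) ≤ 1 + (dl * u) ^ 2 := by nlinarith
    have h3 : 0 < dl ^ 2 * (1 + u ^ 2) := by positivity
    calc dl * ‖g (dl * u)‖ ≤ dl * (C / (1 + (dl * u) ^ 2)) := mul_le_mul_of_nonneg_left h1 hd.le
      _ ≤ dl * (C / (dl ^ 2 * (1 + u ^ 2))) := by gcongr
      _ = _ := by field_simp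
  · intro w
    rw [hgr (w / dl)]
    have h1 := MeasureTheory.Measure.integral_comp_mul_left
      (fun x : ℝ => g x * Complex.exp (2 * Real.pi * Complex.I * x * ((w / dl : ℝ) : ℂ))) dl
    have h2 : (∫ u : ℝ, (dl : ℂ) * g (dl * u) * Complex.exp (2 * Real.pi * Complex.I * u * w)) =
        dl * ∫ u : ℝ, (fun x : ℝ => g x * Complex.exp (2 * Real.pi * Complex.I * x *
          ((w / dl : ℝ) : ℂ))) (dl * u) := by
      rw [← integral_const_mul]
      refine integral_congr_ae (Filter.Eventually.of_forall fun u => ?_)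
      simp only
      rw [mul_assoc]
      congr 3
      have : (dl : ℂ) ≠ 0 := by exact_mod_cast hd.ne'
      push_cast
      field_simp
    have hne : (dl : ℂ) ≠ 0 := by exact_mod_cast hd.ne'
    have e : (dl : ℂ) * ((dl⁻¹ : ℝ) : ℂ) = 1 := by
      push_cast
      exact mul_inv_cancel₀ hne
    rw [h2, h1, abs_of_pos (inv_pos.mpr hd), Complex.real_smul, ← mul_assoc, e, one_mul]

/-- smoothed sums with the weight `(log n)^k n^(-1-e)` -/
theorem short (k : ℕ) : ∃ C : ℝ, 0 < C ∧ ∀ e dl lam : ℝ, 0 < e → e ≤ 1 → 0 < dl → dl ≤ 1 →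
    ∀ N : ℕ, Real.exp (lam + dl) ≤ N →
    |∑ n ∈ Icc 1 N, (ArithmeticFunction.vonMangoldt n - 1) * (Real.log n) ^ k *
      Real.exp (-((1 + e) * Real.log n)) * ker ((Real.log n - lam) / dl)| ≤
      C / dl * (e ^ (-(3 / 4) : ℝ)) ^ (k + 1) := by
  obtain ⟨C1, hC1, h1⟩ := fall k
  obtain ⟨C2, hC2, h2⟩ := ker_scaled
  obtain ⟨CM, hCM, hM⟩ := sw_log_pow (3 * (k + 1))
  set J : ℝ := ∫ u : ℝ, (1 + u ^ 2) ^ (-(3 / 4) : ℝ) with hJ
  have hJ0 : 0 ≤ J := integral_nonneg fun u => by positivity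
  refine ⟨C1 * C2 * CM * J + 1, by positivity, fun e dl lam he he1 hd hd1 N hN => ?_⟩
  obtain ⟨g, hg, hgb, hgr⟩ := h2 dl hd hd1
  have hgi : Integrable g := sw_int_g hg hgb
  set σ : ℝ := 1 + e with hσ
  set f : ℕ → ℂ := LSeries.logMul^[k] f1 with hf
  have hfs : LSeriesSummable f (σ : ℂ) := by
    have h3 : LSeries.abscissaOfAbsConv f < ((σ : ℂ)).re := by
      rw [hf, LSeries.absicssaOfAbsConv_logPowMul]
      exact f1_absc (by rw [Complex.ofReal_re, hσ]; linarith)
    exact LSeriesSummable_of_abscissaOfAbsConv_lt_re h3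
  have hNz : ∀ n : ℕ, N < n → (fun w : ℝ => ker (w / dl)) (Real.log n - lam) = 0 := by
    intro n hn
    apply ker_zero
    have hn' : Real.exp (lam + dl) ≤ n := hN.trans (by exact_mod_cast hn.le)
    have hn0 : (0 : ℝ) < n := lt_of_lt_of_le (Real.exp_pos _) hn'
    have h4 : lam + dl ≤ Real.log n := by rwa [Real.le_log_iff_exp_le hn0]
    rw [abs_of_nonneg (div_nonneg (by linarith) hd.le), le_div_iff₀ hd]
    linarith
  have hr := rp_repr f σ lam hfs g hgi (fun w => ker (w / dl)) hgr N hNz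
  have hcast : ((∑ n ∈ Icc 1 N, (ArithmeticFunction.vonMangoldt n - 1) * (Real.log n) ^ k *
      Real.exp (-((1 + e) * Real.log n)) * ker ((Real.log n - lam) / dl) : ℝ) : ℂ) =
      ∑ n ∈ Icc 1 N, f n * (Real.exp (-(σ * Real.log n)) : ℂ) *
        (((fun w : ℝ => ker (w / dl)) (Real.log n - lam) : ℝ) : ℂ) := by
    push_cast
    refine Finset.sum_congr rfl fun n _ => ?_
    rw [hf, logMul_iter, f1, hσ, ← Complex.natCast_log]
    push_cast
    ring
  rw [← Real.norm_eq_abs, ← Complex.norm_real, hcast, hr]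
  set D : ℝ := C1 * C2 * CM / dl * (e ^ (-(3 / 4) : ℝ)) ^ (k + 1) with hD
  have hptw : ∀ u : ℝ, ‖g u * Complex.exp (-(2 * Real.pi * Complex.I * u * lam)) *
      LSeries f ((σ : ℂ) - 2 * Real.pi * u * Complex.I)‖ ≤ D * (1 + u ^ 2) ^ (-(3 / 4) : ℝ) := by
    intro u
    have hs : ((σ : ℂ) - 2 * Real.pi * u * Complex.I) = ((1 + e : ℝ) : ℂ) +
        ((-(2 * Real.pi * u) : ℝ) : ℂ) * Complex.I := by
      rw [hσ]
      push_cast
      ring
    have hFb := h1 e (-(2 * Real.pi * u)) he he1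
    rw [abs_neg] at hFb
    have hexp' : ‖Complex.exp (-(2 * Real.pi * Complex.I * u * lam))‖ = 1 := by
      rw [Complex.norm_exp]
      simp
    rw [norm_mul, norm_mul, hexp', mul_one, hs]
    have hu1 : (0 : ℝ) < 1 + u ^ 2 := by positivity
    have hlog0 : 0 ≤ Real.log (|2 * Real.pi * u| + 3) := by
      apply Real.log_nonneg
      have := abs_nonneg (2 * Real.pi * u)
      linarith
    have hb : (e ^ (-(3 / 4) : ℝ) * (Real.log (|2 * Real.pi * u| + 3)) ^ 3) ^ (k + 1) ≤
        (e ^ (-(3 / 4) : ℝ)) ^ (k + 1) * (CM * (1 + u ^ 2) ^ (1 / 4 : ℝ)) := by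
      rw [mul_pow, ← pow_mul]
      exact mul_le_mul_of_nonneg_left (hM u) (by positivity)
    calc ‖g u‖ * ‖LSeries f (((1 + e : ℝ) : ℂ) + ((-(2 * Real.pi * u) : ℝ) : ℂ) * Complex.I)‖
        ≤ ((C2 / dl) / (1 + u ^ 2)) * (C1 * ((e ^ (-(3 / 4) : ℝ)) ^ (k + 1) *
          (CM * (1 + u ^ 2) ^ (1 / 4 : ℝ)))) :=
          mul_le_mul (hgb u) (hFb.trans (mul_le_mul_of_nonneg_left hb hC1.le)) (norm_nonneg _)
            (by positivity)
      _ = D * ((1 + u ^ 2) ^ (1 / 4 : ℝ) / (1 + u ^ 2)) := by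
          rw [hD]
          ring
      _ = D * (1 + u ^ 2) ^ (-(3 / 4) : ℝ) := by
          congr 1
          rw [div_eq_mul_inv, ← Real.rpow_neg_one (1 + u ^ 2), ← Real.rpow_add hu1]
          norm_num
  have hint := norm_integral_le_of_norm_le (sw_integrable.const_mul D)
    (Filter.Eventually.of_forall hptw)
  rw [integral_const_mul, ← hJ] at hint
  refine hint.trans ?_
  have h0 : 0 ≤ 1 / dl * (e ^ (-(3 / 4) : ℝ)) ^ (k + 1) := by positivity
  calc D * J = (C1 * C2 * CM * J) * (1 / dl * (e ^ (-(3 / 4) : ℝ)) ^ (k + 1)) := by rw [hD]; ring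
    _ ≤ (C1 * C2 * CM * J + 1) * (1 / dl * (e ^ (-(3 / 4) : ℝ)) ^ (k + 1)) :=
        mul_le_mul_of_nonneg_right (by linarith) h0
    _ = _ := by ring

end PNTE
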