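import Pool.Agent.H7.PNTE.Z4

/-!
# Prime number theorem with error term, part 5

`ψ(x) = x + O(x / (log x)^A)`.
-/

set_option autoImplicit false

namespace PNTE
open Finset MTA Filter
open ArithmeticFunction (vonMangoldt)

/-- weight versus constant -/
theorem wt_bounds (k : ℕ) {lam dl l : ℝ} (hlam : 2 ≤ lam) (hd : 0 < dl) (hd1 : dl ≤ 1)
    (hl : |l - lam| ≤ dl) :
    Real.exp (-((k + 2) * dl)) * (lam ^ k * Real.exp (-((1 + 1 / lam) * lam))) ≤
      l ^ k * Real.exp (-((1 + 1 / lam) * l)) ∧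
    l ^ k * Real.exp (-((1 + 1 / lam) * l)) ≤
      Real.exp ((k + 2) * dl) * (lam ^ k * Real.exp (-((1 + 1 / lam) * lam))) := by
  have hlam0 : 0 < lam := by linarith
  obtain ⟨h1, h2⟩ := abs_le.mp hl
  have hl0 : 0 < l := by linarith
  have he : 1 / lam ≤ 1 / 2 := one_div_le_one_div_of_le (by norm_num) hlam
  have he0 : 0 < 1 / lam := by positivity
  have hr1 : l / lam ≤ 1 + dl / 2 := by
    rw [div_le_iff₀ hlam0]
    nlinarith
  have hr2 : 1 - dl / 2 ≤ l / lam := by
    rw [le_div_iff₀ hlam0]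
    nlinarith
  have hr3 : l / lam ≤ Real.exp dl := by
    have := Real.add_one_le_exp dl
    linarith
  have hr4 : Real.exp (-dl) ≤ l / lam := by
    refine le_trans ?_ hr2
    have hp : 0 < 1 - dl / 2 := by linarith
    rw [← Real.le_log_iff_exp_le hp]
    have h := Real.one_sub_inv_le_log_of_pos hp
    refine le_trans ?_ h
    rw [inv_eq_one_div, neg_le_sub_iff_le_add, div_le_iff₀ hp]
    nlinarith
  have e1 : l ^ k = (l / lam) ^ k * lam ^ k := by
    rw [div_pow]; field_simp
  have e2 : Real.exp (-((1 + 1 / lam) * l)) = Real.exp (-((1 + 1 / lam) * (l - lam))) *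
      Real.exp (-((1 + 1 / lam) * lam)) := by
    rw [← Real.exp_add]; congr 1; ring
  have hx1 : Real.exp (-((1 + 1 / lam) * (l - lam))) ≤ Real.exp (2 * dl) := by
    apply Real.exp_le_exp.mpr
    nlinarith
  have hx2 : Real.exp (-(2 * dl)) ≤ Real.exp (-((1 + 1 / lam) * (l - lam))) := by
    apply Real.exp_le_exp.mpr
    nlinarith
  have hk1 : (l / lam) ^ k ≤ Real.exp (k * dl) := by
    calc (l / lam) ^ k ≤ (Real.exp dl) ^ k := pow_le_pow_left₀ (by positivity) hr3 k
      _ = _ := by rw [← Real.exp_nat_mul]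
  have hk2 : Real.exp (-(k * dl)) ≤ (l / lam) ^ k := by
    calc Real.exp (-(k * dl)) = (Real.exp (-dl)) ^ k := by rw [← Real.exp_nat_mul]; congr 1; ring
      _ ≤ _ := pow_le_pow_left₀ (Real.exp_pos _).le hr4 k
  have hW0 : 0 < lam ^ k * Real.exp (-((1 + 1 / lam) * lam)) := by positivity
  have e3 : l ^ k * Real.exp (-((1 + 1 / lam) * l)) =
      ((l / lam) ^ k * Real.exp (-((1 + 1 / lam) * (l - lam)))) *
        (lam ^ k * Real.exp (-((1 + 1 / lam) * lam))) := by
    rw [e2, e1]; ring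
  rw [e3]
  constructor
  · apply mul_le_mul_of_nonneg_right _ hW0.le
    calc Real.exp (-((k + 2) * dl)) = Real.exp (-(k * dl)) * Real.exp (-(2 * dl)) := by
          rw [← Real.exp_add]; congr 1; ring
      _ ≤ _ := mul_le_mul hk2 hx2 (Real.exp_pos _).le (by positivity)
  · apply mul_le_mul_of_nonneg_right _ hW0.le
    calc _ ≤ Real.exp (k * dl) * Real.exp (2 * dl) :=
          mul_le_mul hk1 hx1 (Real.exp_pos _).le (Real.exp_pos _).le
      _ = _ := by rw [← Real.exp_add]; congr 1; ring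

/-- the number of integers in a multiplicative short interval -/
theorem ker_count {lam dl : ℝ} (hd : 0 < dl) (hd1 : dl ≤ 1) (N : ℕ) :
    ∑ n ∈ Icc 1 N, ker ((Real.log n - lam) / dl) ≤ 4 * dl * Real.exp lam + 1 := by
  set S := (Icc 1 N).filter (fun n : ℕ => ker ((Real.log n - lam) / dl) ≠ 0) with hS
  have h1 : ∑ n ∈ Icc 1 N, ker ((Real.log n - lam) / dl) ≤ S.card := by
    rw [← Finset.sum_filter_ne_zero, ← hS]
    calc _ ≤ ∑ n ∈ S, (1 : ℝ) := sum_le_sum fun n _ => ker_le _
      _ = _ := by simp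
  have h2 : S ⊆ Ioc ⌊Real.exp (lam - dl)⌋₊ ⌊Real.exp (lam + dl)⌋₊ := by
    intro n hn
    rw [hS, mem_filter, mem_Icc] at hn
    obtain ⟨⟨hn1, -⟩, hn2⟩ := hn
    have hn0 : (0 : ℝ) < n := by exact_mod_cast hn1
    have h3 : |(Real.log n - lam) / dl| < 1 := by
      by_contra h
      push Not at h
      exact hn2 (ker_zero h)
    rw [abs_div, abs_of_pos hd, div_lt_one hd, abs_lt] at h3
    have h4 : Real.exp (lam - dl) < n := by
      rw [← Real.exp_log hn0]; apply Real.exp_lt_exp.mpr; linarith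
    have h5 : (n : ℝ) < Real.exp (lam + dl) := by
      rw [← Real.exp_log hn0]; apply Real.exp_lt_exp.mpr; linarith
    rw [mem_Ioc]
    exact ⟨(Nat.floor_lt (Real.exp_pos _).le).mpr h4, Nat.le_floor h5.le⟩
  have h3 : (S.card : ℝ) ≤ Real.exp (lam + dl) - Real.exp (lam - dl) + 1 := by
    have h4 := card_le_card h2
    rw [Nat.card_Ioc] at h4
    have h5 : (S.card : ℝ) ≤ (⌊Real.exp (lam + dl)⌋₊ : ℝ) - ⌊Real.exp (lam - dl)⌋₊ := by
      have h6 : ⌊Real.exp (lam - dl)⌋₊ ≤ ⌊Real.exp (lam + dl)⌋₊ :=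
        Nat.floor_le_floor (Real.exp_le_exp.mpr (by linarith))
      rw [← Nat.cast_sub h6]
      exact_mod_cast h4
    have h6 : (⌊Real.exp (lam + dl)⌋₊ : ℝ) ≤ Real.exp (lam + dl) := Nat.floor_le (Real.exp_pos _).le
    have h7 : Real.exp (lam - dl) < ⌊Real.exp (lam - dl)⌋₊ + 1 := Nat.lt_floor_add_one _
    linarith
  have h4 : Real.exp (lam + dl) - Real.exp (lam - dl) ≤ 4 * dl * Real.exp lam := by
    have e1 : Real.exp (lam + dl) - Real.exp (lam - dl) =
        Real.exp lam * (Real.exp dl - Real.exp (-dl)) := by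
      rw [mul_sub, ← Real.exp_add, ← Real.exp_add]; rfl
    have e2 : Real.exp dl ≤ 1 + 2 * dl := by
      have := Real.exp_bound_div_one_sub_of_interval (x := dl)
      have h8 := Real.abs_exp_sub_one_sub_id_le (x := dl) (by rw [abs_of_pos hd]; exact hd1)
      have h9 := (abs_le.mp h8).2
      nlinarith
    have e3 : 1 - dl ≤ Real.exp (-dl) := by
      have := Real.add_one_le_exp (-dl)
      linarith
    rw [e1]
    have := Real.exp_pos lam
    nlinarith
  linarith

/-- short intervals, without weights -/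
theorem short' (m : ℕ) : ∃ C : ℝ, 1 ≤ C ∧ ∀ dl lam : ℝ, 2 ≤ lam → 0 < dl → C * dl ≤ 1 →
    ∀ N : ℕ, Real.exp (lam + dl) ≤ N →
    |∑ n ∈ Icc 1 N, (vonMangoldt n - 1) * ker ((Real.log n - lam) / dl)| ≤
      C * (dl ^ 2 * Real.exp lam + dl + Real.exp lam / (lam ^ m * dl)) := by
  set k : ℕ := 4 * m + 3 with hk
  obtain ⟨C0, hC0, hC⟩ := short k
  set C : ℝ := 160 * (k + 2) + 30 * C0 with hCdef
  have hkk : (0 : ℝ) ≤ k := Nat.cast_nonneg k
  refine ⟨C, by rw [hCdef]; nlinarith, fun dl lam hlam hd hCd N hN => ?_⟩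
  have hη : (k + 2) * dl ≤ 1 / 2 := by
    have : (160 * (k + 2)) * dl ≤ C * dl := by
      apply mul_le_mul_of_nonneg_right _ hd.le
      rw [hCdef]; linarith
    nlinarith
  have hd1 : dl ≤ 1 := by nlinarith
  set η : ℝ := (k + 2) * dl with hηd
  have hη0 : 0 < η := by positivity
  have hlam0 : 0 < lam := by linarith
  set W0 : ℝ := lam ^ k * Real.exp (-((1 + 1 / lam) * lam)) with hW0
  have hW0p : 0 < W0 := by positivity
  set W : ℕ → ℝ := fun n => (Real.log n) ^ k * Real.exp (-((1 + 1 / lam) * Real.log n)) with hW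
  set κ : ℕ → ℝ := fun n => ker ((Real.log n - lam) / dl) with hκ
  have hκ0 : ∀ n, 0 ≤ κ n := fun n => ker_nonneg _
  set E : ℝ := C0 / dl * ((1 / lam) ^ (-(3 / 4) : ℝ)) ^ (k + 1) with hE
  have hmain := hC (1 / lam) dl lam (by positivity) (by rw [div_le_one hlam0]; linarith) hd hd1 N hN
  rw [← hE] at hmain
  have hmain' : |∑ n ∈ Icc 1 N, (vonMangoldt n - 1) * (W n * κ n)| ≤ E := by
    refine le_trans (le_of_eq ?_) hmain
    congr 1
    apply sum_congr rfl
    intro n _
    rw [hW, hκ]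
    ring
  have hWb : ∀ n, Real.exp (-η) * W0 * κ n ≤ W n * κ n ∧ W n * κ n ≤ Real.exp η * W0 * κ n := by
    intro n
    by_cases h : κ n = 0
    · rw [h]; simp
    · have h3 : |(Real.log n - lam) / dl| < 1 := by
        by_contra hh
        push Not at hh
        exact h (ker_zero hh)
      rw [abs_div, abs_of_pos hd, div_lt_one hd] at h3
      obtain ⟨a1, a2⟩ := wt_bounds k hlam hd hd1 h3.le
      exact ⟨mul_le_mul_of_nonneg_right a1 (hκ0 n), mul_le_mul_of_nonneg_right a2 (hκ0 n)⟩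
  set SL : ℝ := ∑ n ∈ Icc 1 N, vonMangoldt n * κ n with hSL
  set S1 : ℝ := ∑ n ∈ Icc 1 N, κ n with hS1
  have hSL0 : 0 ≤ SL := sum_nonneg fun n _ => mul_nonneg ArithmeticFunction.vonMangoldt_nonneg (hκ0 n)
  have hS10 : 0 ≤ S1 := sum_nonneg fun n _ => hκ0 n
  have e1 : ∑ n ∈ Icc 1 N, (vonMangoldt n - 1) * (W n * κ n) =
      ∑ n ∈ Icc 1 N, vonMangoldt n * (W n * κ n) - ∑ n ∈ Icc 1 N, W n * κ n := by
    rw [← sum_sub_distrib]
    apply sum_congr rfl
    intro n _
    ring
  have e2 : ∑ n ∈ Icc 1 N, (vonMangoldt n - 1) * κ n = SL - S1 := by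
    rw [hSL, hS1, ← sum_sub_distrib]
    apply sum_congr rfl
    intro n _
    ring
  have b1 : Real.exp (-η) * W0 * SL ≤ ∑ n ∈ Icc 1 N, vonMangoldt n * (W n * κ n) := by
    rw [hSL, mul_sum]
    apply sum_le_sum
    intro n _
    have h := mul_le_mul_of_nonneg_left (hWb n).1 (ArithmeticFunction.vonMangoldt_nonneg (n := n))
    linarith
  have b2 : ∑ n ∈ Icc 1 N, vonMangoldt n * (W n * κ n) ≤ Real.exp η * W0 * SL := by
    rw [hSL, mul_sum]
    apply sum_le_sum
    intro n _
    have h := mul_le_mul_of_nonneg_left (hWb n).2 (ArithmeticFunction.vonMangoldt_nonneg (n := n))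
    linarith
  have b3 : Real.exp (-η) * W0 * S1 ≤ ∑ n ∈ Icc 1 N, W n * κ n := by
    rw [hS1, mul_sum]
    exact sum_le_sum fun n _ => (hWb n).1
  have b4 : ∑ n ∈ Icc 1 N, W n * κ n ≤ Real.exp η * W0 * S1 := by
    rw [hS1, mul_sum]
    exact sum_le_sum fun n _ => (hWb n).2
  rw [e1] at hmain'
  obtain ⟨c1, c2⟩ := abs_le.mp hmain'
  -- divide by `W0`
  set E' : ℝ := E / W0 with hE'
  have hE0 : 0 ≤ E := by positivity
  have hE'0 : 0 ≤ E' := by positivity
  have hEE : E = E' * W0 := by rw [hE']; field_simp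
  have f1 : Real.exp (-η) * SL ≤ Real.exp η * S1 + E' := by
    have : Real.exp (-η) * W0 * SL ≤ Real.exp η * W0 * S1 + E' * W0 := by
      rw [← hEE]; linarith
    have h : (Real.exp (-η) * SL) * W0 ≤ (Real.exp η * S1 + E') * W0 := by nlinarith
    exact le_of_mul_le_mul_right h hW0p
  have f2 : Real.exp (-η) * S1 ≤ Real.exp η * SL + E' := by
    have : Real.exp (-η) * W0 * S1 ≤ Real.exp η * W0 * SL + E' * W0 := by
      rw [← hEE]; linarith
    have h : (Real.exp (-η) * S1) * W0 ≤ (Real.exp η * SL + E') * W0 := by nlinarith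
    exact le_of_mul_le_mul_right h hW0p
  -- numerical bounds
  have g1 : Real.exp η ≤ 1 + 2 * η := by
    have h8 := Real.abs_exp_sub_one_sub_id_le (x := η) (by rw [abs_of_pos hη0]; linarith)
    have h9 := (abs_le.mp h8).2
    nlinarith
  have g2 : 1 - η ≤ Real.exp (-η) := by
    have := Real.add_one_le_exp (-η)
    linarith
  have g3 : SL ≤ (1 + 8 * η) * S1 + 2 * E' := by
    have h1 : (1 - η) * SL ≤ (1 + 2 * η) * S1 + E' := by
      calc (1 - η) * SL ≤ Real.exp (-η) * SL := mul_le_mul_of_nonneg_right g2 hSL0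
        _ ≤ Real.exp η * S1 + E' := f1
        _ ≤ _ := by
            have := mul_le_mul_of_nonneg_right g1 hS10
            linarith
    have h2 : 0 < 1 - η := by linarith
    have h3 : (1 - η) * ((1 + 8 * η) * S1 + 2 * E') ≥ (1 + 2 * η) * S1 + E' := by
      have h4 : (1 + 2 * η) * S1 ≤ (1 - η) * (1 + 8 * η) * S1 := by
        apply mul_le_mul_of_nonneg_right _ hS10
        nlinarith
      have h5 : E' ≤ (1 - η) * (2 * E') := by nlinarith
      linarith
    exact le_of_mul_le_mul_left (h1.trans h3) h2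
  have g4 : S1 ≤ SL + 8 * η * SL + 2 * E' := by
    have h1 : (1 - η) * S1 ≤ (1 + 2 * η) * SL + E' := by
      calc (1 - η) * S1 ≤ Real.exp (-η) * S1 := mul_le_mul_of_nonneg_right g2 hS10
        _ ≤ Real.exp η * SL + E' := f2
        _ ≤ _ := by
            have := mul_le_mul_of_nonneg_right g1 hSL0
            linarith
    have h2 : 0 < 1 - η := by linarith
    have h3 : (1 - η) * (SL + 8 * η * SL + 2 * E') ≥ (1 + 2 * η) * SL + E' := by
      have h4 : (1 + 2 * η) * SL ≤ (1 - η) * (1 + 8 * η) * SL := by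
        apply mul_le_mul_of_nonneg_right _ hSL0
        nlinarith
      have h5 : E' ≤ (1 - η) * (2 * E') := by nlinarith
      nlinarith
    exact le_of_mul_le_mul_left (h1.trans h3) h2
  have g5 : |SL - S1| ≤ 40 * η * S1 + 10 * E' := by
    rw [abs_le]
    constructor
    · have h1 : 8 * η * SL ≤ 8 * η * ((1 + 8 * η) * S1 + 2 * E') :=
        mul_le_mul_of_nonneg_left g3 (by positivity)
      have h2 : 8 * η * ((1 + 8 * η) * S1 + 2 * E') ≤ 40 * η * S1 + 8 * E' := by
        have h3 : 8 * η * ((1 + 8 * η) * S1) ≤ 40 * η * S1 := by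
          have : 0 ≤ η * S1 := by positivity
          nlinarith
        have h4 : 8 * η * (2 * E') ≤ 8 * E' := by nlinarith
        linarith
      linarith
    · have h3 : 0 ≤ η * S1 := by positivity
      nlinarith
  rw [e2]
  refine g5.trans ?_
  have hcount : S1 ≤ 4 * dl * Real.exp lam + 1 := ker_count hd hd1 N
  have hE'b : E' ≤ C0 * 3 * (Real.exp lam / (lam ^ m * dl)) := by
    have e3 : ((1 / lam) ^ (-(3 / 4) : ℝ)) ^ (k + 1) = lam ^ (3 * m + 3) := by
      rw [one_div, Real.inv_rpow hlam0.le, Real.rpow_neg hlam0.le, inv_inv, ← Real.rpow_natCast,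
        ← Real.rpow_mul hlam0.le, ← Real.rpow_natCast]
      congr 1
      rw [hk]
      push_cast
      ring
    have e4 : Real.exp (-((1 + 1 / lam) * lam)) = (Real.exp lam)⁻¹ * (Real.exp 1)⁻¹ := by
      rw [← Real.exp_neg, ← Real.exp_neg, ← Real.exp_add]
      congr 1
      field_simp
      ring
    have e5 : lam ^ k = lam ^ (3 * m + 3) * lam ^ m := by
      rw [← pow_add]; congr 1; rw [hk]; ring
    have e6 : E' = C0 * Real.exp 1 * (Real.exp lam / (lam ^ m * dl)) := by
      rw [hE', hE, hW0, e3, e4, e5]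
      field_simp
    rw [e6]
    have h1 : Real.exp 1 ≤ 3 := by have := Real.exp_one_lt_d9; linarith
    have h2 : 0 ≤ Real.exp lam / (lam ^ m * dl) := by positivity
    apply mul_le_mul_of_nonneg_right _ h2
    exact mul_le_mul_of_nonneg_left h1 hC0.le
  have h5 : 40 * η * S1 ≤ 40 * η * (4 * dl * Real.exp lam + 1) :=
    mul_le_mul_of_nonneg_left hcount (by positivity)
  have hX0 : 0 ≤ Real.exp lam / (lam ^ m * dl) := by positivity
  have hel := Real.exp_pos lam
  calc 40 * η * S1 + 10 * E' ≤ 40 * η * (4 * dl * Real.exp lam + 1) +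
        10 * (C0 * 3 * (Real.exp lam / (lam ^ m * dl))) := by linarith
    _ = (160 * (k + 2)) * (dl ^ 2 * Real.exp lam) + (40 * (k + 2)) * dl +
        (30 * C0) * (Real.exp lam / (lam ^ m * dl)) := by rw [hηd]; ring
    _ ≤ _ := by
        have i1 : 0 ≤ dl ^ 2 * Real.exp lam := by positivity
        have i2 : (160 * ((k : ℝ) + 2)) * (dl ^ 2 * Real.exp lam) ≤ C * (dl ^ 2 * Real.exp lam) := by
          apply mul_le_mul_of_nonneg_right _ i1
          rw [hCdef]; linarith
        have i3 : (40 * ((k : ℝ) + 2)) * dl ≤ C * dl := by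
          apply mul_le_mul_of_nonneg_right _ hd.le
          rw [hCdef]; linarith
        have i4 : (30 * C0) * (Real.exp lam / (lam ^ m * dl)) ≤
            C * (Real.exp lam / (lam ^ m * dl)) := by
          apply mul_le_mul_of_nonneg_right _ hX0
          rw [hCdef]; linarith
        linarith

end PNTE
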