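import Pool.Agent.H7.PNTE.Z5

/-!
# Prime number theorem with error term, part 6

`ψ(x) = x + O(x / (log x)^A)`, `θ(x) = x + O(x / (log x)^A)`, `π(x) = x / log x + O(x / (log x)^2)`.
-/

set_option autoImplicit false

namespace PNTE
open Finset MTA Filter
open ArithmeticFunction (vonMangoldt)

/-- the long weight -/
noncomputable def lw (J : ℕ) (v : ℝ) : ℝ := Real.smoothTransition (v + J) - Real.smoothTransition v

theorem lw_eq (J : ℕ) (v : ℝ) : ∑ j ∈ range J, ker (v + j) = lw J v := by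
  unfold lw
  have h : ∀ j ∈ range J, ker (v + j) = (fun i : ℕ => Real.smoothTransition (v + i)) (j + 1) -
      (fun i : ℕ => Real.smoothTransition (v + i)) j := by
    intro j _
    unfold ker
    push_cast
    rw [add_assoc]
  rw [sum_congr rfl h]
  refine (Finset.sum_range_sub (fun i : ℕ => Real.smoothTransition (v + i)) J).trans ?_
  simp

theorem lw_nonneg (J : ℕ) (v : ℝ) : 0 ≤ lw J v := by
  unfold lw
  have hJ : (0 : ℝ) ≤ J := Nat.cast_nonneg J
  have := Real.smoothTransition.monotone (show v ≤ v + J by linarith)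
  linarith

theorem lw_le (J : ℕ) (v : ℝ) : lw J v ≤ 1 := by
  unfold lw
  have h1 := Real.smoothTransition.le_one (v + J)
  have h2 := Real.smoothTransition.nonneg v
  linarith

theorem lw_one (J : ℕ) {v : ℝ} (h1 : v ≤ 0) (h2 : 1 ≤ v + J) : lw J v = 1 := by
  unfold lw
  rw [Real.smoothTransition.one_of_one_le h2, Real.smoothTransition.zero_of_nonpos h1]
  ring

theorem lw_zero (J : ℕ) {v : ℝ} (h : 1 ≤ v) : lw J v = 0 := by
  unfold lw
  have hJ : (0 : ℝ) ≤ J := Nat.cast_nonneg J
  rw [Real.smoothTransition.one_of_one_le (by linarith), Real.smoothTransition.one_of_one_le h]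
  ring

theorem geom {dl : ℝ} (hd : 0 < dl) (hd1 : dl ≤ 1) (X : ℝ) (J : ℕ) :
    ∑ j ∈ range J, Real.exp (X - j * dl) ≤ 2 / dl * Real.exp X := by
  have h1 : ∀ j ∈ range J, Real.exp (X - j * dl) = Real.exp X * (Real.exp (-dl)) ^ j := by
    intro j _
    rw [← Real.exp_nat_mul, ← Real.exp_add]
    congr 1
    ring
  rw [sum_congr rfl h1, ← mul_sum, mul_comm]
  apply mul_le_mul_of_nonneg_right _ (Real.exp_pos _).le
  have h2 : Real.exp (-dl) ≤ 1 - dl / 2 := by
    rw [Real.exp_neg, inv_eq_one_div, div_le_iff₀ (Real.exp_pos _)]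
    have h9 := Real.add_one_le_exp dl
    calc 1 ≤ (1 - dl / 2) * (dl + 1) := by nlinarith
      _ ≤ _ := mul_le_mul_of_nonneg_left h9 (by linarith)
  have h3 : Real.exp (-dl) < 1 := by linarith
  have h0 : 0 ≤ Real.exp (-dl) := (Real.exp_pos _).le
  have h4 : ∑ j ∈ range J, (Real.exp (-dl)) ^ j ≤ (1 - Real.exp (-dl))⁻¹ := by
    rw [← tsum_geometric_of_lt_one h0 h3]
    exact (summable_geometric_of_lt_one h0 h3).sum_le_tsum _ (fun j _ => pow_nonneg h0 j)
  refine h4.trans ?_
  rw [inv_eq_one_div, div_le_div_iff₀ (by linarith) hd]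
  linarith

/-- the long smooth sum -/
theorem long (m : ℕ) : ∃ C : ℝ, 1 ≤ C ∧ ∀ dl X : ℝ, 4 ≤ X → 0 < dl → C * dl ≤ 1 →
    ∀ J : ℕ, J * dl ≤ X / 2 → ∀ N : ℕ, Real.exp (X + dl) ≤ N →
    |∑ n ∈ Icc 1 N, (vonMangoldt n - 1) * lw J ((Real.log n - X) / dl)| ≤
      C * (dl * Real.exp X + X + Real.exp X / (X ^ m * dl ^ 2)) := by
  obtain ⟨C, hC1, hC⟩ := short' m
  refine ⟨C * 2 ^ (m + 1), ?_, fun dl X hX hd hCd J hJ N hN => ?_⟩
  · have : (1 : ℝ) ≤ 2 ^ (m + 1) := one_le_pow₀ (by norm_num)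
    nlinarith
  have h2m : (1 : ℝ) ≤ 2 ^ (m + 1) := one_le_pow₀ (by norm_num)
  have hC0 : 0 < C := by linarith
  have hCd' : C * dl ≤ 1 := by
    refine le_trans ?_ hCd
    have : 0 ≤ C * dl := by positivity
    nlinarith
  have hd1 : dl ≤ 1 := by nlinarith
  have hX0 : 0 < X := by linarith
  have e1 : ∑ n ∈ Icc 1 N, (vonMangoldt n - 1) * lw J ((Real.log n - X) / dl) =
      ∑ j ∈ range J, ∑ n ∈ Icc 1 N, (vonMangoldt n - 1) * ker ((Real.log n - (X - j * dl)) / dl) := by
    rw [Finset.sum_comm]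
    apply sum_congr rfl
    intro n _
    rw [← lw_eq, mul_sum]
    apply sum_congr rfl
    intro j _
    congr 2
    field_simp
    ring
  rw [e1]
  have hterm : ∀ j ∈ range J, |∑ n ∈ Icc 1 N, (vonMangoldt n - 1) *
      ker ((Real.log n - (X - j * dl)) / dl)| ≤
      C * dl + (C * dl ^ 2 + C * 2 ^ m / (X ^ m * dl)) * Real.exp (X - j * dl) := by
    intro j hj
    rw [mem_range] at hj
    have hjJ : (j : ℝ) * dl ≤ X / 2 := by
      refine le_trans ?_ hJ
      apply mul_le_mul_of_nonneg_right _ hd.le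
      exact_mod_cast hj.le
    have hj0 : 0 ≤ (j : ℝ) * dl := by positivity
    have hlam : X / 2 ≤ X - j * dl := by linarith
    have h1 := hC dl (X - j * dl) (by linarith) hd hCd' N
      (le_trans (Real.exp_le_exp.mpr (by linarith)) hN)
    refine h1.trans ?_
    have h2 : Real.exp (X - j * dl) / ((X - j * dl) ^ m * dl) ≤
        2 ^ m / (X ^ m * dl) * Real.exp (X - j * dl) := by
      have h3 : X ^ m ≤ 2 ^ m * (X - j * dl) ^ m := by
        rw [← mul_pow]
        exact pow_le_pow_left₀ hX0.le (by linarith) m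
      have h4 : 0 < X - j * dl := by linarith
      rw [div_mul_eq_mul_div, div_le_div_iff₀ (by positivity) (by positivity)]
      have h5 := Real.exp_pos (X - j * dl)
      calc Real.exp (X - j * dl) * (X ^ m * dl) ≤
            Real.exp (X - j * dl) * ((2 ^ m * (X - j * dl) ^ m) * dl) := by gcongr
        _ = _ := by ring
    calc C * (dl ^ 2 * Real.exp (X - j * dl) + dl + Real.exp (X - j * dl) / ((X - j * dl) ^ m * dl))
        ≤ C * (dl ^ 2 * Real.exp (X - j * dl) + dl + 2 ^ m / (X ^ m * dl) * Real.exp (X - j * dl)) := by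
          gcongr
      _ = _ := by ring
  refine (abs_sum_le_sum_abs _ _).trans ((sum_le_sum hterm).trans ?_)
  rw [sum_add_distrib, sum_const, card_range, nsmul_eq_mul, ← mul_sum]
  have hg := geom hd hd1 X J
  have hc0 : 0 ≤ C * dl ^ 2 + C * 2 ^ m / (X ^ m * dl) := by positivity
  calc (J : ℝ) * (C * dl) + (C * dl ^ 2 + C * 2 ^ m / (X ^ m * dl)) *
        ∑ j ∈ range J, Real.exp (X - j * dl)
      ≤ C * (J * dl) + (C * dl ^ 2 + C * 2 ^ m / (X ^ m * dl)) * (2 / dl * Real.exp X) := by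
        have := mul_le_mul_of_nonneg_left hg hc0
        linarith
    _ = C * (J * dl) + (C * 2) * (dl * Real.exp X) +
        (C * 2 ^ (m + 1)) * (Real.exp X / (X ^ m * dl ^ 2)) := by
        rw [pow_succ]; field_simp; ring
    _ ≤ (C * 2 ^ (m + 1)) * X + (C * 2 ^ (m + 1)) * (dl * Real.exp X) +
        (C * 2 ^ (m + 1)) * (Real.exp X / (X ^ m * dl ^ 2)) := by
        have h6 : (2 : ℝ) ≤ 2 ^ (m + 1) := by
          calc (2 : ℝ) = 2 ^ 1 := (pow_one _).symm
            _ ≤ _ := pow_le_pow_right₀ (by norm_num) (by omega)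
        have h7 : C * (J * dl) ≤ (C * 2 ^ (m + 1)) * X := by
          calc C * (J * dl) ≤ C * X := mul_le_mul_of_nonneg_left (by linarith) hC0.le
            _ ≤ (C * 2 ^ (m + 1)) * X := by
                apply mul_le_mul_of_nonneg_right _ hX0.le
                nlinarith
        have h8 : (C * 2) * (dl * Real.exp X) ≤ (C * 2 ^ (m + 1)) * (dl * Real.exp X) := by
          apply mul_le_mul_of_nonneg_right _ (by positivity)
          nlinarith
        linarith
    _ = _ := by ring

/-- the Chebyshev function as a sum over `Icc` -/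
theorem psi_Icc (x : ℝ) : Chebyshev.psi x = ∑ n ∈ Icc 1 ⌊x⌋₊, vonMangoldt n := by
  unfold Chebyshev.psi
  rfl

theorem psi_upper (m : ℕ) : ∃ C : ℝ, 1 ≤ C ∧ ∀ dl X : ℝ, 4 ≤ X → 0 < dl → C * dl ≤ 1 →
    Chebyshev.psi (Real.exp X) ≤ Real.exp X +
      C * (dl * Real.exp X + X + Real.exp X / (X ^ m * dl ^ 2)) + 6 * Real.exp (X / 2 + 2) := by
  obtain ⟨C, hC1, hC⟩ := long m
  refine ⟨C + 2, by linarith, fun dl X hX hd hCd => ?_⟩
  have hCd' : C * dl ≤ 1 := by nlinarith
  have hd1 : dl ≤ 1 := by nlinarith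
  set J : ℕ := ⌊X / (2 * dl)⌋₊ with hJ
  have hJ1 : (J : ℝ) * dl ≤ X / 2 := by
    have h1 : (J : ℝ) ≤ X / (2 * dl) := Nat.floor_le (by positivity)
    rw [le_div_iff₀ (by positivity)] at h1
    linarith
  have hJ2 : X / 2 - dl ≤ J * dl := by
    have h1 : X / (2 * dl) < J + 1 := Nat.lt_floor_add_one _
    rw [div_lt_iff₀ (by positivity)] at h1
    nlinarith
  set N : ℕ := ⌈Real.exp (X + 1)⌉₊ with hN
  have hN1 : Real.exp (X + 1) ≤ N := Nat.le_ceil _
  have hN2 : Real.exp (X + dl) ≤ N := le_trans (Real.exp_le_exp.mpr (by linarith)) hN1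
  have hmain := (abs_le.mp (hC dl X hX hd hCd' J hJ1 N hN2)).2
  have e1 : ∑ n ∈ Icc 1 N, (vonMangoldt n - 1) * lw J ((Real.log n - X) / dl) =
      ∑ n ∈ Icc 1 N, vonMangoldt n * lw J ((Real.log n - X) / dl) -
        ∑ n ∈ Icc 1 N, lw J ((Real.log n - X) / dl) := by
    rw [← sum_sub_distrib]
    apply sum_congr rfl
    intro n _
    ring
  rw [e1] at hmain
  -- the sum of the weights
  have hw : ∑ n ∈ Icc 1 N, lw J ((Real.log n - X) / dl) ≤ Real.exp (X + dl) := by
    have h1 : ∑ n ∈ Icc 1 N, lw J ((Real.log n - X) / dl) ≤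
        ∑ n ∈ Icc 1 N, if n ∈ Icc 1 ⌊Real.exp (X + dl)⌋₊ then (1 : ℝ) else 0 := by
      apply sum_le_sum
      intro n hn
      rw [mem_Icc] at hn
      have hn0 : (0 : ℝ) < n := by exact_mod_cast hn.1
      split_ifs with h
      · exact lw_le _ _
      · rw [lw_zero]
        rw [mem_Icc, not_and, not_le] at h
        have h2 := h hn.1
        have h3 : Real.exp (X + dl) < n := Nat.lt_of_floor_lt h2
        have h4 : X + dl ≤ Real.log n := by
          rw [Real.le_log_iff_exp_le hn0]; exact h3.le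
        rw [le_div_iff₀ hd]
        linarith
    refine h1.trans ?_
    rw [← sum_filter, sum_const, nsmul_eq_mul, mul_one]
    have h2 : ((Icc 1 N).filter (fun n => n ∈ Icc 1 ⌊Real.exp (X + dl)⌋₊)).card ≤
        ⌊Real.exp (X + dl)⌋₊ := by
      calc _ ≤ (Icc 1 ⌊Real.exp (X + dl)⌋₊).card :=
            card_le_card fun n hn => (mem_filter.mp hn).2
        _ = _ := by simp
    calc _ ≤ ((⌊Real.exp (X + dl)⌋₊ : ℕ) : ℝ) := by exact_mod_cast h2
      _ ≤ _ := Nat.floor_le (Real.exp_pos _).le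
  -- the Chebyshev function
  have hfl : ⌊Real.exp X⌋₊ ≤ N := by
    have h1 : (⌊Real.exp X⌋₊ : ℝ) ≤ N := by
      calc (⌊Real.exp X⌋₊ : ℝ) ≤ Real.exp X := Nat.floor_le (Real.exp_pos _).le
        _ ≤ Real.exp (X + 1) := Real.exp_le_exp.mpr (by linarith)
        _ ≤ N := hN1
    exact_mod_cast h1
  have hpsi : Chebyshev.psi (Real.exp X) ≤
      ∑ n ∈ Icc 1 N, vonMangoldt n * lw J ((Real.log n - X) / dl) +
        Chebyshev.psi (Real.exp (X / 2 + 2)) := by
    rw [psi_Icc, psi_Icc]
    have h1 : ∀ n ∈ Icc 1 ⌊Real.exp X⌋₊, vonMangoldt n ≤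
        vonMangoldt n * lw J ((Real.log n - X) / dl) +
          if n ∈ Icc 1 ⌊Real.exp (X / 2 + 2)⌋₊ then vonMangoldt n else 0 := by
      intro n hn
      rw [mem_Icc] at hn
      have hn0 : (0 : ℝ) < n := by exact_mod_cast hn.1
      have hL0 : 0 ≤ vonMangoldt n := ArithmeticFunction.vonMangoldt_nonneg
      split_ifs with h
      · have := mul_nonneg hL0 (lw_nonneg J ((Real.log n - X) / dl))
        linarith
      · rw [lw_one]
        · linarith
        · have h2 : (n : ℝ) ≤ Real.exp X := (Nat.le_floor_iff (Real.exp_pos _).le).mp hn.2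
          have h3 : Real.log n ≤ X := by
            rw [Real.log_le_iff_le_exp hn0]; exact h2
          exact div_nonpos_of_nonpos_of_nonneg (by linarith) hd.le
        · rw [mem_Icc, not_and, not_le] at h
          have h2 := h hn.1
          have h3 : Real.exp (X / 2 + 2) < n := Nat.lt_of_floor_lt h2
          have h4 : X / 2 + 2 ≤ Real.log n := by
            rw [Real.le_log_iff_exp_le hn0]; exact h3.le
          have h5 : 1 - (J : ℝ) ≤ (Real.log n - X) / dl := by
            rw [le_div_iff₀ hd]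
            nlinarith
          linarith
    calc ∑ n ∈ Icc 1 ⌊Real.exp X⌋₊, vonMangoldt n ≤ ∑ n ∈ Icc 1 ⌊Real.exp X⌋₊,
          (vonMangoldt n * lw J ((Real.log n - X) / dl) +
          if n ∈ Icc 1 ⌊Real.exp (X / 2 + 2)⌋₊ then vonMangoldt n else 0) := sum_le_sum h1
      _ = ∑ n ∈ Icc 1 ⌊Real.exp X⌋₊, vonMangoldt n * lw J ((Real.log n - X) / dl) +
          ∑ n ∈ Icc 1 ⌊Real.exp X⌋₊,
            (if n ∈ Icc 1 ⌊Real.exp (X / 2 + 2)⌋₊ then vonMangoldt n else 0) := sum_add_distrib
      _ ≤ _ := by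
          apply add_le_add
          · apply sum_le_sum_of_subset_of_nonneg (Icc_subset_Icc le_rfl hfl)
            intro n _ _
            exact mul_nonneg ArithmeticFunction.vonMangoldt_nonneg (lw_nonneg _ _)
          · rw [← sum_filter]
            apply sum_le_sum_of_subset_of_nonneg
            · intro n hn; exact (mem_filter.mp hn).2
            · intro n _ _; exact ArithmeticFunction.vonMangoldt_nonneg
  have hsmall : Chebyshev.psi (Real.exp (X / 2 + 2)) ≤ 6 * Real.exp (X / 2 + 2) := by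
    refine (Chebyshev.psi_le_const_mul_self (Real.exp_pos _).le).trans ?_
    apply mul_le_mul_of_nonneg_right _ (Real.exp_pos _).le
    have h4 : Real.log 4 ≤ 2 := by
      rw [show (4 : ℝ) = 2 ^ 2 by norm_num, Real.log_pow]
      have := Real.log_two_lt_d9
      push_cast
      linarith
    linarith
  have hexp : Real.exp (X + dl) ≤ Real.exp X + 2 * dl * Real.exp X := by
    have h8 := Real.abs_exp_sub_one_sub_id_le (x := dl) (by rw [abs_of_pos hd]; exact hd1)
    have h9 := (abs_le.mp h8).2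
    have h10 : Real.exp dl ≤ 1 + 2 * dl := by nlinarith
    rw [Real.exp_add]
    have := Real.exp_pos X
    nlinarith
  have hrest : 0 ≤ X + Real.exp X / (X ^ m * dl ^ 2) := by positivity
  nlinarith

theorem psi_lower (m : ℕ) : ∃ C : ℝ, 1 ≤ C ∧ ∀ dl X : ℝ, 4 ≤ X → 0 < dl → C * dl ≤ 1 →
    Real.exp X - 1 - Real.exp (X / 2 + 2) -
      C * (dl * Real.exp X + X + Real.exp X / (X ^ m * dl ^ 2)) ≤
      Chebyshev.psi (Real.exp (X + dl)) := by
  obtain ⟨C, hC1, hC⟩ := long m
  refine ⟨C, hC1, fun dl X hX hd hCd => ?_⟩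
  have hd1 : dl ≤ 1 := by nlinarith
  set J : ℕ := ⌊X / (2 * dl)⌋₊ with hJ
  have hJ1 : (J : ℝ) * dl ≤ X / 2 := by
    have h1 : (J : ℝ) ≤ X / (2 * dl) := Nat.floor_le (by positivity)
    rw [le_div_iff₀ (by positivity)] at h1
    linarith
  have hJ2 : X / 2 - dl ≤ J * dl := by
    have h1 : X / (2 * dl) < J + 1 := Nat.lt_floor_add_one _
    rw [div_lt_iff₀ (by positivity)] at h1
    nlinarith
  set N : ℕ := ⌈Real.exp (X + 1)⌉₊ with hN
  have hN1 : Real.exp (X + 1) ≤ N := Nat.le_ceil _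
  have hN2 : Real.exp (X + dl) ≤ N := le_trans (Real.exp_le_exp.mpr (by linarith)) hN1
  have hmain := (abs_le.mp (hC dl X hX hd hCd J hJ1 N hN2)).1
  have e1 : ∑ n ∈ Icc 1 N, (vonMangoldt n - 1) * lw J ((Real.log n - X) / dl) =
      ∑ n ∈ Icc 1 N, vonMangoldt n * lw J ((Real.log n - X) / dl) -
        ∑ n ∈ Icc 1 N, lw J ((Real.log n - X) / dl) := by
    rw [← sum_sub_distrib]
    apply sum_congr rfl
    intro n _
    ring
  rw [e1] at hmain
  -- the sum of the weights
  have hfl : ⌊Real.exp X⌋₊ ≤ N := by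
    have h1 : (⌊Real.exp X⌋₊ : ℝ) ≤ N := by
      calc (⌊Real.exp X⌋₊ : ℝ) ≤ Real.exp X := Nat.floor_le (Real.exp_pos _).le
        _ ≤ Real.exp (X + 1) := Real.exp_le_exp.mpr (by linarith)
        _ ≤ N := hN1
    exact_mod_cast h1
  have hw : Real.exp X - 1 - Real.exp (X / 2 + 2) ≤ ∑ n ∈ Icc 1 N, lw J ((Real.log n - X) / dl) := by
    have h1 : ∑ n ∈ Ioc ⌊Real.exp (X / 2 + 2)⌋₊ ⌊Real.exp X⌋₊, (1 : ℝ) ≤
        ∑ n ∈ Icc 1 N, lw J ((Real.log n - X) / dl) := by
      calc _ = ∑ n ∈ Ioc ⌊Real.exp (X / 2 + 2)⌋₊ ⌊Real.exp X⌋₊, lw J ((Real.log n - X) / dl) := by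
            apply sum_congr rfl
            intro n hn
            rw [mem_Ioc] at hn
            have hn0 : (0 : ℝ) < n := by
              have : 0 < n := by omega
              exact_mod_cast this
            rw [lw_one]
            · have h2 : (n : ℝ) ≤ Real.exp X := (Nat.le_floor_iff (Real.exp_pos _).le).mp hn.2
              have h3 : Real.log n ≤ X := by
                rw [Real.log_le_iff_le_exp hn0]; exact h2
              exact div_nonpos_of_nonpos_of_nonneg (by linarith) hd.le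
            · have h3 : Real.exp (X / 2 + 2) < n := Nat.lt_of_floor_lt hn.1
              have h4 : X / 2 + 2 ≤ Real.log n := by
                rw [Real.le_log_iff_exp_le hn0]; exact h3.le
              have h5 : 1 - (J : ℝ) ≤ (Real.log n - X) / dl := by
                rw [le_div_iff₀ hd]
                nlinarith
              linarith
        _ ≤ _ := by
            apply sum_le_sum_of_subset_of_nonneg
            · intro n hn
              rw [mem_Ioc] at hn
              rw [mem_Icc]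
              omega
            · intro n _ _; exact lw_nonneg _ _
    refine le_trans ?_ h1
    rw [sum_const, Nat.card_Ioc, nsmul_eq_mul, mul_one]
    have h2 : Real.exp X < ⌊Real.exp X⌋₊ + 1 := Nat.lt_floor_add_one _
    have h3 : (⌊Real.exp (X / 2 + 2)⌋₊ : ℝ) ≤ Real.exp (X / 2 + 2) := Nat.floor_le (Real.exp_pos _).le
    rcases le_total ⌊Real.exp (X / 2 + 2)⌋₊ ⌊Real.exp X⌋₊ with h | h
    · rw [Nat.cast_sub h]; linarith
    · rw [Nat.sub_eq_zero_of_le h]
      have h4 : (⌊Real.exp X⌋₊ : ℝ) ≤ ⌊Real.exp (X / 2 + 2)⌋₊ := by exact_mod_cast h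
      push_cast
      linarith
  have hpsi : ∑ n ∈ Icc 1 N, vonMangoldt n * lw J ((Real.log n - X) / dl) ≤
      Chebyshev.psi (Real.exp (X + dl)) := by
    rw [psi_Icc]
    calc _ ≤ ∑ n ∈ Icc 1 N, (if n ∈ Icc 1 ⌊Real.exp (X + dl)⌋₊ then vonMangoldt n else 0) := by
          apply sum_le_sum
          intro n hn
          rw [mem_Icc] at hn
          have hn0 : (0 : ℝ) < n := by exact_mod_cast hn.1
          have hL0 : 0 ≤ vonMangoldt n := ArithmeticFunction.vonMangoldt_nonneg
          split_ifs with h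
          · exact mul_le_of_le_one_right hL0 (lw_le _ _)
          · rw [lw_zero, mul_zero]
            rw [mem_Icc, not_and, not_le] at h
            have h2 := h hn.1
            have h3 : Real.exp (X + dl) < n := Nat.lt_of_floor_lt h2
            have h4 : X + dl ≤ Real.log n := by
              rw [Real.le_log_iff_exp_le hn0]; exact h3.le
            rw [le_div_iff₀ hd]
            linarith
      _ ≤ _ := by
          rw [← sum_filter]
          apply sum_le_sum_of_subset_of_nonneg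
          · intro n hn; exact (mem_filter.mp hn).2
          · intro n _ _; exact ArithmeticFunction.vonMangoldt_nonneg
  linarith

end PNTE
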